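import Pool.Agent.H125Z.CC.Dart

set_option autoImplicit false

namespace Pool.Agent.H125Z.CC

open Finset
open Pool.Agent.Results.MP_75ff39_co.InfiniteAntichain

/-- the perfect matchings of a Latin square colouring of a complete bipartite graph -/
def lat {m : ℕ} (z : ZMod m) : ZMod m × Bool → ZMod m × Bool
  | (y, false) => (y + z, true)
  | (y, true) => (y - z, false)

lemma lat_lat {m : ℕ} (z : ZMod m) (x : ZMod m × Bool) : lat z (lat z x) = x := by
  rcases x with ⟨y, _ | _⟩ <;> simp [lat]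

lemma lat_snd {m : ℕ} (z : ZMod m) (x : ZMod m × Bool) : (lat z x).2 = !x.2 := by
  rcases x with ⟨y, _ | _⟩ <;> simp [lat]

lemma lat_ne {m : ℕ} (z : ZMod m) (x : ZMod m × Bool) : lat z x ≠ x := by
  intro h
  have := lat_snd z x
  rw [h] at this
  simp at this

lemma lat_inj {m : ℕ} {z z' : ZMod m} {x : ZMod m × Bool} (h : lat z x = lat z' x) : z = z' := by
  rcases x with ⟨y, _ | _⟩ <;> simpa [lat] using h

lemma lat_surj {m : ℕ} (x x' : ZMod m × Bool) (h : x'.2 = !x.2) : ∃ z, lat z x = x' := by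
  rcases x with ⟨y, _ | _⟩ <;> rcases x' with ⟨y', b⟩ <;> simp only at h <;> subst h
  · exact ⟨y' - y, by simp [lat]⟩
  · exact ⟨y - y', by simp [lat]⟩

namespace DS

/-- the hypotheses under which the cover is cyclically five edge connected -/
structure Nice (A : DS) : Prop where
  semi_inj : ∀ d d', A.τ d = d → A.τ d' = d' → A.vert d = A.vert d' → d = d'
  many : 13 ≤ Fintype.card {d // A.τ d = d}
  five : ∀ U : Finset A.V, 3 ≤ #U → 5 ≤ A.bd U
  conn : ∀ U : Finset A.V, U.Nonempty → U ≠ univ → ∃ d, A.vert d ∈ U ∧ A.vert (A.τ d) ∉ U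

/-- number of semi-edges -/
def ns (A : DS) : ℕ := Fintype.card {d // A.τ d = d}

lemma exists_idx (A : DS) [NeZero A.ns] : ∃ ι : A.D → ZMod A.ns,
    (∀ d d', A.τ d = d → A.τ d' = d' → ι d = ι d' → d = d') ∧
      ∀ z, ∃ d, A.τ d = d ∧ ι d = z := by
  let e : {d // A.τ d = d} ≃ ZMod A.ns := Fintype.equivOfCardEq (by rw [ZMod.card]; rfl)
  refine ⟨fun d => if h : A.τ d = d then e ⟨d, h⟩ else 0, fun d d' h h' he => ?_, fun z => ?_⟩
  · simp only [h, h', dif_pos] at he
    exact congrArg Subtype.val (e.injective he)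
  · exact ⟨(e.symm z).1, (e.symm z).2, by simp [(e.symm z).2]⟩

/-- index of a semi-edge -/
noncomputable def idx (A : DS) [NeZero A.ns] : A.D → ZMod A.ns := A.exists_idx.choose

lemma idx_inj (A : DS) [NeZero A.ns] :
    ∀ d d', A.τ d = d → A.τ d' = d' → A.idx d = A.idx d' → d = d' := A.exists_idx.choose_spec.1

lemma idx_surj (A : DS) [NeZero A.ns] : ∀ z, ∃ d, A.τ d = d ∧ A.idx d = z :=
  A.exists_idx.choose_spec.2

/-- the involution of the cover -/
noncomputable def cτ (A : DS) [NeZero A.ns] (p : A.D × (ZMod A.ns × Bool)) :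
    A.D × (ZMod A.ns × Bool) :=
  if A.τ p.1 = p.1 then (p.1, lat (A.idx p.1) p.2) else (A.τ p.1, p.2)

lemma cτ_fix (A : DS) [NeZero A.ns] {d : A.D} (h : A.τ d = d) (x : ZMod A.ns × Bool) :
    A.cτ (d, x) = (d, lat (A.idx d) x) := by simp [cτ, h]

lemma cτ_nfix (A : DS) [NeZero A.ns] {d : A.D} (h : A.τ d ≠ d) (x : ZMod A.ns × Bool) :
    A.cτ (d, x) = (A.τ d, x) := by simp [cτ, h]

/-- many copies of the graph, semi-edges joined along a Latin square -/
@[reducible] noncomputable def cover (A : DS) [NeZero A.ns]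
    (hs : ∀ d d', A.τ d = d → A.τ d' = d' → A.vert d = A.vert d' → d = d') : DS where
  V := A.V × (ZMod A.ns × Bool)
  D := A.D × (ZMod A.ns × Bool)
  vert := fun p => (A.vert p.1, p.2)
  τ := A.cτ
  invol := by
    rintro ⟨d, x⟩
    by_cases h : A.τ d = d
    · rw [cτ_fix A h, cτ_fix A h, lat_lat]
    · rw [cτ_nfix A h, cτ_nfix A (by rw [A.invol]; exact fun h' => h h'.symm), A.invol]
  three := by
    rintro ⟨v, x⟩
    rw [← A.three v]
    refine Finset.card_bij (fun p _ => p.1) ?_ ?_ ?_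
    · intro p hp
      simp only [Finset.mem_filter, Finset.mem_univ, true_and, Prod.mk.injEq] at hp ⊢
      exact hp.1
    · intro p hp q hq h
      simp only [Finset.mem_filter, Finset.mem_univ, true_and, Prod.mk.injEq] at hp hq
      exact Prod.ext h (hp.2.trans hq.2.symm)
    · intro d hd
      simp only [Finset.mem_filter, Finset.mem_univ, true_and] at hd
      exact ⟨(d, x), by simp [hd], rfl⟩
  noloop := by
    rintro ⟨d, x⟩ _
    by_cases h : A.τ d = d
    · rw [cτ_fix A h]; simp [lat_ne]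
    · rw [cτ_nfix A h]; simp [A.noloop d h]
  simple := by
    rintro ⟨d, x⟩ ⟨d', x'⟩ _ _ h1 h2
    simp only [Prod.mk.injEq] at h1
    obtain ⟨h1, rfl⟩ := h1
    by_cases h : A.τ d = d <;> by_cases h' : A.τ d' = d'
    · rw [hs d d' h h' h1]
    · rw [cτ_fix A h, cτ_nfix A h'] at h2
      simp [lat_ne] at h2
    · rw [cτ_nfix A h, cτ_fix A h'] at h2
      simp [(lat_ne _ _).symm] at h2
    · rw [cτ_nfix A h, cτ_nfix A h'] at h2
      simp only [Prod.mk.injEq, and_true] at h2
      rw [A.simple d d' h h' h1 h2]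

variable (A : DS) [NeZero A.ns]
  (hs : ∀ d d', A.τ d = d → A.τ d' = d' → A.vert d = A.vert d' → d = d')

lemma cover_closed : (A.cover hs).Closed := by
  rintro ⟨d, x⟩
  show A.cτ (d, x) ≠ (d, x)
  by_cases h : A.τ d = d
  · rw [cτ_fix A h]; simp [lat_ne]
  · rw [cτ_nfix A h]; simp [h]

lemma hom_cover : Hom A (A.cover hs) := by
  refine ⟨fun d => (d, (0, false)), fun v => (v, (0, false)), fun d => rfl,
    fun d d' _ h => congrArg Prod.fst h, fun d => ?_⟩
  by_cases h : A.τ d = d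
  · left; rw [h]
  · right; exact (cτ_nfix A h _).symm

lemma cover_hom : Hom (A.cover hs) A := by
  refine ⟨Prod.fst, Prod.fst, fun d => rfl, ?_, ?_⟩
  · rintro ⟨d, x⟩ ⟨d', x'⟩ h1 h2
    exact Prod.ext h2 (Prod.mk.inj h1).2
  · rintro ⟨d, x⟩
    show (A.cτ (d, x)).1 = d ∨ (A.cτ (d, x)).1 = A.τ d
    by_cases h : A.τ d = d
    · left; rw [cτ_fix A h]
    · right; rw [cτ_nfix A h]

lemma cover_even : Even (Fintype.card (A.cover hs).V) := by
  show Even (Fintype.card (A.V × (ZMod A.ns × Bool)))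
  simp only [Fintype.card_prod, Fintype.card_bool]
  exact ⟨Fintype.card A.V * Fintype.card (ZMod A.ns), by ring⟩

lemma bd_compl {B : DS} (h : B.Closed) (U : Finset B.V) : B.bd Uᶜ = B.bd U := by
  unfold bd
  refine Finset.card_bij (fun d _ => B.τ d) ?_ (fun d _ d' _ h => B.τ_inj h) ?_
  · intro d hd
    simp only [Finset.mem_filter, Finset.mem_univ, true_and, B.invol, h _, false_or,
      Finset.mem_compl, not_not] at hd ⊢
    exact ⟨hd.2, hd.1⟩
  · intro d hd
    simp only [Finset.mem_filter, Finset.mem_univ, true_and, h _, false_or] at hd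
    refine ⟨B.τ d, ?_, B.invol d⟩
    simp only [Finset.mem_filter, Finset.mem_univ, true_and, B.invol, Finset.mem_compl, not_not]
    exact ⟨hd.2, Or.inr hd.1⟩

/-- the part of a vertex set of the cover inside one copy -/
def sl (U : Finset (A.V × (ZMod A.ns × Bool))) (x : ZMod A.ns × Bool) : Finset A.V :=
  {v | (v, x) ∈ U}

/-- number of leaving darts that start in one copy -/
noncomputable def cc (U : Finset (A.V × (ZMod A.ns × Bool))) (x : ZMod A.ns × Bool) : ℕ :=
  #{d | (A.vert d, x) ∈ U ∧ (A.vert (A.cτ (d, x)).1, (A.cτ (d, x)).2) ∉ U}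

lemma bd_cover (U : Finset (A.V × (ZMod A.ns × Bool))) :
    (A.cover hs).bd U = ∑ x, A.cc U x := by
  unfold bd cc
  simp only [Finset.card_filter]
  rw [Fintype.sum_prod_type, Finset.sum_comm]
  refine Finset.sum_congr rfl fun x _ => Finset.sum_congr rfl fun d _ => ?_
  have := A.cover_closed hs (d, x)
  simp only [this, false_or]

lemma card_sl (U : Finset (A.V × (ZMod A.ns × Bool))) : #U = ∑ x, #(A.sl U x) := by
  unfold sl
  simp only [Finset.card_filter]
  rw [Finset.sum_comm, ← Fintype.sum_prod_type']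
  simp

variable {A}

lemma split_pos (hA : A.Nice) (U : Finset (A.V × (ZMod A.ns × Bool))) (x : ZMod A.ns × Bool)
    (h1 : (A.sl U x).Nonempty) (h2 : A.sl U x ≠ univ) : 1 ≤ A.cc U x := by
  obtain ⟨d, hd1, hd2⟩ := hA.conn _ h1 h2
  have h : A.τ d ≠ d := fun h => hd2 (by rw [h]; exact hd1)
  refine Finset.card_pos.2 ⟨d, ?_⟩
  simp only [sl, Finset.mem_filter, Finset.mem_univ, true_and] at hd1 hd2 ⊢
  rw [cτ_nfix A h]
  exact ⟨hd1, hd2⟩

lemma full_ge (U : Finset (A.V × (ZMod A.ns × Bool))) (x : ZMod A.ns × Bool)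
    (h : A.sl U x = univ) : #{y | y.2 = !x.2 ∧ A.sl U y = ∅} ≤ A.cc U x := by
  refine Finset.card_le_card_of_surjOn (fun d => lat (A.idx d) x) ?_
  intro y hy
  simp only [Finset.coe_filter, Finset.mem_univ, true_and, Set.mem_ofPred_eq] at hy
  obtain ⟨z, rfl⟩ := lat_surj x y hy.1
  obtain ⟨d, hd, rfl⟩ := A.idx_surj z
  refine ⟨d, ?_, rfl⟩
  simp only [Finset.coe_filter, Finset.mem_univ, true_and, Set.mem_ofPred_eq]
  rw [cτ_fix A hd]
  constructor
  · have : A.vert d ∈ A.sl U x := by rw [h]; exact Finset.mem_univ _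
    simpa [sl] using this
  · have : A.vert d ∉ A.sl U (lat (A.idx d) x) := by rw [hy.2]; simp
    simpa [sl] using this

lemma no_full_empty (hA : A.Nice) (U : Finset (A.V × (ZMod A.ns × Bool)))
    (hU : ∑ x, A.cc U x ≤ 4) (x y : ZMod A.ns × Bool) (hx : A.sl U x = univ)
    (hy : A.sl U y = ∅) : False := by
  have hle : ∀ T : Finset (ZMod A.ns × Bool), (∀ x ∈ T, 1 ≤ A.cc U x) → #T ≤ 4 := by
    intro T hT
    calc #T = ∑ x ∈ T, 1 := by simp
      _ ≤ ∑ x ∈ T, A.cc U x := Finset.sum_le_sum hT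
      _ ≤ ∑ x, A.cc U x := Finset.sum_le_sum_of_subset (Finset.subset_univ _)
      _ ≤ 4 := hU
  have hsp : #{x | (A.sl U x).Nonempty ∧ A.sl U x ≠ univ} ≤ 4 :=
    hle _ fun x hx => by
      simp only [Finset.mem_filter, Finset.mem_univ, true_and] at hx
      exact split_pos hA U x hx.1 hx.2
  have hside : ∀ b : Bool, #{y : ZMod A.ns × Bool | y.2 = b} = A.ns := by
    intro b
    refine Eq.trans (b := #(univ : Finset (ZMod A.ns))) ?_ (by rw [Finset.card_univ, ZMod.card])
    refine Finset.card_bij (fun p _ => p.1) (fun _ _ => Finset.mem_univ _) ?_ ?_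
    · intro p hp q hq h
      simp only [Finset.mem_filter, Finset.mem_univ, true_and] at hp hq
      exact Prod.ext h (hp.trans hq.symm)
    · intro z _
      exact ⟨(z, b), by simp, rfl⟩
  have hfull : ∀ x, A.sl U x = univ → 5 ≤ #{y | y.2 = !x.2 ∧ A.sl U y = univ} := by
    intro x hx
    have h1 := full_ge U x hx
    have h2 : A.cc U x ≤ ∑ x, A.cc U x :=
      Finset.single_le_sum (f := fun x => A.cc U x) (fun _ _ => Nat.zero_le _) (Finset.mem_univ x)
    have h3 : ({y : ZMod A.ns × Bool | y.2 = !x.2} : Finset (ZMod A.ns × Bool)) ⊆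
        (({y : ZMod A.ns × Bool | y.2 = !x.2 ∧ A.sl U y = univ} : Finset (ZMod A.ns × Bool)) ∪
          ({y : ZMod A.ns × Bool | y.2 = !x.2 ∧ A.sl U y = ∅} : Finset (ZMod A.ns × Bool))) ∪
          ({x : ZMod A.ns × Bool | (A.sl U x).Nonempty ∧ A.sl U x ≠ univ} :
            Finset (ZMod A.ns × Bool)) := by
      intro y hy
      simp only [Finset.mem_filter, Finset.mem_univ, true_and, Finset.mem_union] at hy ⊢
      rcases (A.sl U y).eq_empty_or_nonempty with h | h
      · exact Or.inl (Or.inr ⟨hy, h⟩)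
      · by_cases h' : A.sl U y = univ
        · exact Or.inl (Or.inl ⟨hy, h'⟩)
        · exact Or.inr ⟨h, h'⟩
    have h4 := (Finset.card_le_card h3).trans ((Finset.card_union_le _ _).trans
      (add_le_add (Finset.card_union_le _ _) le_rfl))
    rw [hside] at h4
    have h5 : 13 ≤ A.ns := hA.many
    omega
  have h5 : 5 ≤ #{z | z.2 = !y.2 ∧ A.sl U z = univ} := by
    by_cases hxy : x.2 = y.2
    · rw [← hxy]; exact hfull x hx
    · obtain ⟨x', hx'⟩ := Finset.card_pos.1 (lt_of_lt_of_le (by norm_num) (hfull x hx))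
      simp only [Finset.mem_filter, Finset.mem_univ, true_and] at hx'
      have : y.2 = x'.2 := by
        rw [hx'.1]
        revert hxy
        cases x.2 <;> cases y.2 <;> simp
      rw [this]
      exact hfull x' hx'.2
  have h6 := hle {z | z.2 = !y.2 ∧ A.sl U z = univ} fun z hz => by
    simp only [Finset.mem_filter, Finset.mem_univ, true_and] at hz
    refine le_trans (Finset.card_pos.2 ⟨y, ?_⟩) (full_ge U z hz.2)
    simp [hz.1, hy]
  omega

lemma small_of_no_full (hA : A.Nice) (U : Finset (A.V × (ZMod A.ns × Bool)))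
    (hU : ∑ x, A.cc U x ≤ 4) (hf : ∀ x, A.sl U x ≠ univ) : #U ≤ 2 := by
  set T : Finset (ZMod A.ns × Bool) := {x | (A.sl U x).Nonempty} with hT
  have hmemT : ∀ x, x ∈ T ↔ (A.sl U x).Nonempty := by intro x; simp [hT]
  have hsum : ∑ x ∈ T, A.cc U x ≤ 4 :=
    (Finset.sum_le_sum_of_subset (Finset.subset_univ _)).trans hU
  have hT4 : #T ≤ 4 := by
    calc #T = ∑ x ∈ T, 1 := by simp
      _ ≤ ∑ x ∈ T, A.cc U x :=
          Finset.sum_le_sum fun x hx => split_pos hA U x ((hmemT x).1 hx) (hf x)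
      _ ≤ 4 := hsum
  have key : ∀ x ∈ T, ∃ d, d ≤ #(A.sl U x) ∧ d + 1 ≤ #T ∧ A.bd (A.sl U x) ≤ A.cc U x + d := by
    intro x hx
    refine ⟨#{d | A.τ d = d ∧ A.vert d ∈ A.sl U x ∧ (A.vert d, lat (A.idx d) x) ∈ U}, ?_, ?_, ?_⟩
    · refine Finset.card_le_card_of_injOn A.vert ?_ ?_
      · intro d hd
        simp only [Finset.coe_filter, Finset.mem_univ, true_and, Set.mem_ofPred_eq] at hd
        exact hd.2.1
      · intro d hd d' hd' h
        simp only [Finset.coe_filter, Finset.mem_univ, true_and, Set.mem_ofPred_eq] at hd hd'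
        exact hA.semi_inj d d' hd.1 hd'.1 h
    · rw [← Finset.card_erase_add_one hx]
      refine Nat.add_le_add_right (Finset.card_le_card_of_injOn (fun d => lat (A.idx d) x) ?_ ?_) 1
      · intro d hd
        simp only [Finset.coe_filter, Finset.mem_univ, true_and, Set.mem_ofPred_eq] at hd
        simp only [Finset.coe_erase, Set.mem_sdiff, Finset.mem_coe, Set.mem_singleton_iff]
        exact ⟨(hmemT _).2 ⟨A.vert d, by simpa [sl] using hd.2.2⟩, lat_ne _ _⟩
      · intro d hd d' hd' h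
        simp only [Finset.coe_filter, Finset.mem_univ, true_and, Set.mem_ofPred_eq] at hd hd'
        exact A.idx_inj d d' hd.1 hd'.1 (lat_inj h)
    · unfold bd cc
      refine (Finset.card_le_card ?_).trans (Finset.card_union_le _ _)
      intro d hd
      simp only [sl, Finset.mem_filter, Finset.mem_univ, true_and, Finset.mem_union] at hd ⊢
      by_cases h : A.τ d = d
      · rw [cτ_fix A h]
        by_cases h' : (A.vert d, lat (A.idx d) x) ∈ U
        · exact Or.inr ⟨h, hd.1, h'⟩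
        · exact Or.inl ⟨hd.1, h'⟩
      · rw [cτ_nfix A h]
        exact Or.inl ⟨hd.1, hd.2.resolve_left h⟩
  have hbd : ∀ x ∈ T, min (#(A.sl U x) + 2) 5 ≤ A.bd (A.sl U x) := by
    intro x hx
    by_cases h : #(A.sl U x) ≤ 2
    · exact (min_le_left _ _).trans (A.bd_small _ ((hmemT x).1 hx) h)
    · exact (min_le_right _ _).trans (hA.five _ (by omega))
  have h2 : ∀ x ∈ T, 2 ≤ A.cc U x := by
    intro x hx
    obtain ⟨d, h1, h2, h3⟩ := key x hx
    have := hbd x hx
    omega
  have h3 : ∀ x ∈ T, #(A.sl U x) + #T ≤ 3 := by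
    intro x hx
    obtain ⟨d, h1, h4, h3⟩ := key x hx
    have h5 := hbd x hx
    have h6 : ∑ y ∈ T.erase x, 2 ≤ ∑ y ∈ T.erase x, A.cc U y :=
      Finset.sum_le_sum fun y hy => h2 y (Finset.mem_of_mem_erase hy)
    have h7 := Finset.add_sum_erase T (fun y => A.cc U y) hx
    have h8 := Finset.card_erase_add_one hx
    simp only [Finset.sum_const, smul_eq_mul] at h6 h7
    omega
  have h4 : #U = ∑ x ∈ T, #(A.sl U x) := by
    rw [card_sl]
    symm
    refine Finset.sum_subset (Finset.subset_univ _) fun x _ hx => ?_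
    rw [hmemT, Finset.not_nonempty_iff_eq_empty] at hx
    simp [hx]
  have h5 : ∑ x ∈ T, #(A.sl U x) ≤ ∑ x ∈ T, (3 - #T) :=
    Finset.sum_le_sum fun x hx => by have := h3 x hx; omega
  simp only [Finset.sum_const, smul_eq_mul] at h5
  have : #T * (3 - #T) ≤ 2 := by
    interval_cases (#T) <;> simp
  omega

theorem cover_cut5 (hA : A.Nice) :
    Cut5 ((A.cover hA.semi_inj).toMG (A.cover_closed hA.semi_inj)) := by
  refine cut5 _ fun U h1 h2 => ?_
  by_contra hcon
  have h3 : ∑ x, A.cc U x ≤ 4 := by rw [← bd_cover A hA.semi_inj]; omega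
  have h4 : ∑ x, A.cc Uᶜ x ≤ 4 := by
    rw [← bd_cover A hA.semi_inj, bd_compl (A.cover_closed hA.semi_inj)]; omega
  by_cases hf : ∀ x, A.sl U x ≠ univ
  · have := small_of_no_full hA U h3 hf
    omega
  · push Not at hf
    obtain ⟨x, hx⟩ := hf
    have := small_of_no_full hA Uᶜ h4 fun y hy => no_full_empty hA U h3 x y hx (by
      rw [Finset.eq_empty_iff_forall_notMem]
      intro v hv
      have h5 : v ∈ A.sl Uᶜ y := by rw [hy]; exact Finset.mem_univ _
      simp only [sl, Finset.mem_filter, Finset.mem_univ, true_and, Finset.mem_compl] at hv h5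
      exact h5 hv)
    omega

end DS

end Pool.Agent.H125Z.CC
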