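import Pool.Agent.Results.MP_75ff39_co.InfiniteAntichain

set_option autoImplicit false

namespace Pool.Agent.H125Z.CC

open Finset
open Pool.Agent.Results.MP_75ff39_co.InfiniteAntichain
open MultiGraph

/-- cubic graph with semi-edges, given by darts -/
structure DS where
  V : Type
  D : Type
  [fV : Fintype V]
  [fD : Fintype D]
  [dV : DecidableEq V]
  [dD : DecidableEq D]
  vert : D → V
  τ : D → D
  invol : ∀ d, τ (τ d) = d
  three : ∀ v, #{d | vert d = v} = 3
  noloop : ∀ d, τ d ≠ d → vert (τ d) ≠ vert d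
  simple : ∀ d d', τ d ≠ d → τ d' ≠ d' → vert d = vert d' → vert (τ d) = vert (τ d') → d = d'

attribute [instance] DS.fV DS.fD DS.dV DS.dD

namespace DS

/-- star preserving maps, folding of edges allowed -/
def Hom (A B : DS) : Prop :=
  ∃ (F : A.D → B.D) (φ : A.V → B.V), (∀ d, B.vert (F d) = φ (A.vert d)) ∧
    (∀ d d', A.vert d = A.vert d' → F d = F d' → d = d') ∧
    ∀ d, F (A.τ d) = F d ∨ F (A.τ d) = B.τ (F d)

lemma Hom.trans {A B C : DS} (h : Hom A B) (h' : Hom B C) : Hom A C := by
  obtain ⟨F, φ, h1, h2, h3⟩ := h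
  obtain ⟨G, ψ, g1, g2, g3⟩ := h'
  refine ⟨G ∘ F, ψ ∘ φ, fun d => by simp [g1, h1], fun d d' hv he => ?_, fun d => ?_⟩
  · exact h2 d d' hv (g2 _ _ (by rw [h1, h1, hv]) he)
  · rcases h3 d with h | h
    · left; simp [h]
    · simp only [Function.comp, h]; exact g3 _

/-- number of darts leaving a vertex set, semi-edges included -/
def bd (A : DS) (U : Finset A.V) : ℕ :=
  #{d | A.vert d ∈ U ∧ (A.τ d = d ∨ A.vert (A.τ d) ∉ U)}

/-- number of edges between two vertex sets -/
def btw (A : DS) (U W : Finset A.V) : ℕ :=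
  #{d | A.τ d ≠ d ∧ A.vert d ∈ U ∧ A.vert (A.τ d) ∈ W}

lemma τ_inj (A : DS) : Function.Injective A.τ := fun d d' h => by
  rw [← A.invol d, h, A.invol]

lemma btw_comm (A : DS) (U W : Finset A.V) : A.btw U W = A.btw W U := by
  unfold btw
  refine Finset.card_bij (fun d _ => A.τ d) ?_ (fun d _ d' _ h => A.τ_inj h) ?_
  · intro d hd
    simp only [Finset.mem_filter, Finset.mem_univ, true_and, A.invol] at hd ⊢
    exact ⟨fun h => hd.1 h.symm, hd.2.2, hd.2.1⟩
  · intro d hd
    simp only [Finset.mem_filter, Finset.mem_univ, true_and] at hd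
    refine ⟨A.τ d, ?_, A.invol d⟩
    simp only [Finset.mem_filter, Finset.mem_univ, true_and, A.invol]
    exact ⟨fun h => hd.1 h.symm, hd.2.2, hd.2.1⟩

lemma bd_union (A : DS) (U W : Finset A.V) (h : Disjoint U W) :
    A.bd U + A.bd W ≤ A.bd (U ∪ W) + 2 * A.btw U W := by
  have key : ∀ U W : Finset A.V, A.bd U ≤
      #{d | A.vert d ∈ U ∧ (A.τ d = d ∨ A.vert (A.τ d) ∉ U ∪ W)} + A.btw U W := by
    intro U W
    unfold bd btw
    refine (Finset.card_le_card ?_).trans (Finset.card_union_le _ _)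
    intro d hd
    simp only [Finset.mem_filter, Finset.mem_univ, true_and, Finset.mem_union] at hd ⊢
    tauto
  have h1 := key U W
  have h2 := key W U
  rw [A.btw_comm W U, Finset.union_comm W U] at h2
  have h3 : #{d | A.vert d ∈ U ∧ (A.τ d = d ∨ A.vert (A.τ d) ∉ U ∪ W)} +
      #{d | A.vert d ∈ W ∧ (A.τ d = d ∨ A.vert (A.τ d) ∉ U ∪ W)} ≤ A.bd (U ∪ W) := by
    rw [← Finset.card_union_of_disjoint]
    · refine Finset.card_le_card fun d hd => ?_
      simp only [Finset.mem_filter, Finset.mem_univ, true_and, Finset.mem_union] at hd ⊢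
      tauto
    · rw [Finset.disjoint_left]
      intro d hd hd'
      simp only [Finset.mem_filter, Finset.mem_univ, true_and] at hd hd'
      exact Finset.disjoint_left.1 h hd.1 hd'.1
  omega

lemma bd_singleton (A : DS) (v : A.V) : A.bd {v} = 3 := by
  rw [← A.three v]
  unfold bd
  congr 1
  ext d
  simp only [Finset.mem_filter, Finset.mem_univ, true_and, Finset.mem_singleton]
  refine ⟨fun h => h.1, fun h => ⟨h, ?_⟩⟩
  by_cases hd : A.τ d = d
  · exact Or.inl hd
  · right; rw [← h]; exact A.noloop d hd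

lemma bd_small (A : DS) (U : Finset A.V) (h1 : U.Nonempty) (h2 : #U ≤ 2) : #U + 2 ≤ A.bd U := by
  have h3 := Finset.card_pos.2 h1
  rcases (by omega : #U = 1 ∨ #U = 2) with h | h
  · obtain ⟨v, rfl⟩ := Finset.card_eq_one.1 h
    rw [bd_singleton]; simp
  · obtain ⟨u, v, huv, rfl⟩ := Finset.card_eq_two.1 h
    have h4 := A.bd_union {u} {v} (by simpa using huv)
    have h5 : A.btw {u} {v} ≤ 1 := by
      unfold btw
      rw [Finset.card_le_one]
      intro d hd d' hd'
      simp only [Finset.mem_filter, Finset.mem_univ, true_and, Finset.mem_singleton] at hd hd'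
      exact A.simple d d' hd.1 hd'.1 (by rw [hd.2.1, hd'.2.1]) (by rw [hd.2.2, hd'.2.2])
    rw [bd_singleton, bd_singleton] at h4
    have : ({u} ∪ {v} : Finset A.V) = {u, v} := by ext; simp
    rw [this] at h4
    omega

/-- no semi-edges -/
def Closed (A : DS) : Prop := ∀ d, A.τ d ≠ d

/-- chosen orientation of the edges -/
def pos (A : DS) (d : A.D) : Prop := Fintype.equivFin A.D d < Fintype.equivFin A.D (A.τ d)

noncomputable instance (A : DS) (d : A.D) : Decidable (A.pos d) := by
  unfold pos; infer_instance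

lemma pos_τ {A : DS} (h : A.Closed) (d : A.D) : A.pos (A.τ d) ↔ ¬ A.pos d := by
  unfold pos
  rw [A.invol]
  have : Fintype.equivFin A.D (A.τ d) ≠ Fintype.equivFin A.D d :=
    fun h' => h d ((Fintype.equivFin A.D).injective h')
  omega

/-- the multigraph of a closed dart system -/
@[reducible] noncomputable def toMG (A : DS) (h : A.Closed) : MultiGraph where
  V := A.V
  E := {d : A.D // A.pos d}
  src := fun e => A.vert e.1
  tgt := fun e => A.vert (A.τ e.1)
  loopless := fun e => (A.noloop e.1 (h e.1)).symm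

/-- the edge of a dart -/
noncomputable def edge (A : DS) (h : A.Closed) (d : A.D) : (A.toMG h).E :=
  if hd : A.pos d then ⟨d, hd⟩ else ⟨A.τ d, (pos_τ h d).2 hd⟩

variable {A : DS} (h : A.Closed)

lemma edge_val (d : A.D) : (A.edge h d).1 = d ∨ (A.edge h d).1 = A.τ d := by
  unfold edge; split_ifs <;> simp

lemma edge_self (e : (A.toMG h).E) : A.edge h e.1 = e := by
  unfold edge; rw [dif_pos e.2]

lemma edge_τ (d : A.D) : A.edge h (A.τ d) = A.edge h d := by
  unfold edge
  by_cases hd : A.pos d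
  · rw [dif_neg (fun h' => (pos_τ h d).1 h' hd), dif_pos hd]
    exact Subtype.ext (A.invol d)
  · rw [dif_pos ((pos_τ h d).2 hd), dif_neg hd]

lemma edge_eq {d d' : A.D} (he : A.edge h d = A.edge h d') : d' = d ∨ d' = A.τ d := by
  have h1 := edge_val h d
  have h2 := edge_val h d'
  rw [he] at h1
  rcases h1 with h1 | h1 <;> rcases h2 with h2 | h2
  · left; rw [← h1, h2]
  · right; rw [← A.invol d', ← h2, h1]
  · right; rw [← h1, h2]
  · left; exact A.τ_inj (by rw [← h1, h2])

lemma inc_edge (v : A.V) (e : (A.toMG h).E) :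
    (A.toMG h).Inc v e ↔ ∃ d, A.vert d = v ∧ A.edge h d = e := by
  constructor
  · rintro (h1 | h1)
    · exact ⟨e.1, h1, edge_self h e⟩
    · exact ⟨A.τ e.1, h1, by rw [edge_τ, edge_self]⟩
  · rintro ⟨d, rfl, rfl⟩
    rcases edge_val h d with h1 | h1
    · left; show A.vert _ = _; rw [h1]
    · right; show A.vert (A.τ _) = _; rw [h1, A.invol]

lemma edge_inj {d d' : A.D} (hv : A.vert d = A.vert d') (he : A.edge h d = A.edge h d') :
    d = d' := by
  rcases edge_eq h he with h1 | h1
  · exact h1.symm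
  · exfalso; rw [h1] at hv; exact A.noloop d (h d) hv.symm

lemma star_eq (v : A.V) : ({e | (A.toMG h).Inc v e} : Finset (A.toMG h).E) =
    ({d | A.vert d = v} : Finset A.D).image (A.edge h) := by
  ext e
  simp only [Finset.mem_filter, Finset.mem_univ, true_and, Finset.mem_image]
  exact inc_edge h v e

lemma cubic : (A.toMG h).Cubic := by
  intro v
  rw [star_eq, Finset.card_image_of_injOn, A.three]
  intro d hd d' hd' he
  simp only [Finset.coe_filter, Finset.mem_univ, true_and, Set.mem_ofPred_eq] at hd hd'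
  exact edge_inj h (hd.trans hd'.symm) he

lemma simpleMG : Simple (A.toMG h) := by
  intro e e' hne a b ha hb ha' hb'
  by_contra hab
  obtain ⟨d1, v1, e1⟩ := (inc_edge h a e).1 ha
  obtain ⟨d2, v2, e2⟩ := (inc_edge h b e).1 hb
  obtain ⟨d3, v3, e3⟩ := (inc_edge h a e').1 ha'
  obtain ⟨d4, v4, e4⟩ := (inc_edge h b e').1 hb'
  have h1 : d2 = A.τ d1 := by
    rcases edge_eq h (e1.trans e2.symm) with h1 | h1
    · exact absurd (by rw [← v1, ← v2, h1]) hab
    · exact h1
  have h2 : d4 = A.τ d3 := by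
    rcases edge_eq h (e3.trans e4.symm) with h1 | h1
    · exact absurd (by rw [← v3, ← v4, h1]) hab
    · exact h1
  have := A.simple d1 d3 (h _) (h _) (by rw [v1, v3]) (by rw [← h1, ← h2, v2, v4])
  exact hne (by rw [← e1, ← e3, this])

lemma cut5 (h5 : ∀ U : Finset A.V, 3 ≤ #U → 3 ≤ #Uᶜ → 5 ≤ A.bd U) : Cut5 (A.toMG h) := by
  intro U h1 h2
  have h3 := h5 {v | U v = true} h1 (by
    refine h2.trans (le_of_eq ?_)
    congr 1
    ext v
    simp)
  refine h3.trans ?_
  unfold bd
  refine Finset.card_le_card_of_injOn (A.edge h) ?_ ?_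
  · intro d hd
    simp only [Finset.coe_filter, Finset.mem_univ, true_and, Set.mem_ofPred_eq,
      Finset.mem_filter, h d, false_or] at hd ⊢
    show U (A.vert _) ≠ U (A.vert (A.τ _))
    rcases edge_val h d with h4 | h4 <;> rw [h4]
    · rw [hd.1]; exact fun h5 => hd.2 h5.symm
    · rw [A.invol, hd.1]; exact hd.2
  · intro d hd d' hd' he
    simp only [Finset.coe_filter, Finset.mem_univ, true_and, Set.mem_ofPred_eq,
      Finset.mem_filter, h _, false_or] at hd hd'
    rcases edge_eq h he with h4 | h4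
    · exact h4.symm
    · rw [h4] at hd'; exact absurd hd'.1 hd.2

variable {B : DS} (hB : B.Closed)

lemma le_of_hom (hh : Hom A B) : (A.toMG h).Le (B.toMG hB) := by
  obtain ⟨F, φ, h1, h2, h3⟩ := hh
  have he : ∀ d, B.edge hB (F (A.edge h d).1) = B.edge hB (F d) := by
    intro d
    rcases edge_val h d with h4 | h4 <;> rw [h4]
    rcases h3 d with h5 | h5 <;> rw [h5]
    exact edge_τ hB _
  refine ⟨fun e => B.edge hB (F e.1), fun ψ hψ v => ?_⟩
  have h4 := hψ (φ v)
  have himg : ({d | A.vert d = v} : Finset A.D).image F =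
      ({d | B.vert d = φ v} : Finset B.D) := by
    apply Finset.eq_of_subset_of_card_le
    · intro d hd
      obtain ⟨d', hd', rfl⟩ := Finset.mem_image.1 hd
      simp only [Finset.mem_filter, Finset.mem_univ, true_and] at hd' ⊢
      rw [h1, hd']
    · rw [B.three, Finset.card_image_of_injOn, A.three]
      intro d hd d' hd' hF
      simp only [Finset.coe_filter, Finset.mem_univ, true_and, Set.mem_ofPred_eq] at hd hd'
      exact h2 d d' (hd.trans hd'.symm) hF
  rw [star_eq, Finset.sum_image, ← himg, Finset.sum_image] at h4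
  · rw [star_eq, Finset.sum_image]
    · simpa only [he] using h4
    · intro d hd d' hd' he
      simp only [Finset.coe_filter, Finset.mem_univ, true_and, Set.mem_ofPred_eq] at hd hd'
      exact edge_inj h (hd.trans hd'.symm) he
  · intro d hd d' hd' hF
    simp only [Finset.coe_filter, Finset.mem_univ, true_and, Set.mem_ofPred_eq] at hd hd'
    exact h2 d d' (hd.trans hd'.symm) hF
  · intro d hd d' hd' he
    simp only [Finset.coe_filter, Finset.mem_univ, true_and, Set.mem_ofPred_eq] at hd hd'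
    exact edge_inj hB (hd.trans hd'.symm) he

lemma hom_of_le (h5 : Cut5 (B.toMG hB)) (hev : Even (Fintype.card B.V))
    (hle : (A.toMG h).Le (B.toMG hB)) : Hom A B := by
  obtain ⟨f, hf⟩ := hle
  choose φ hφ1 hφ2 using fun v => star_of_cc (cubic h) (cubic hB) h5 hev f hf v
  have hinc : ∀ d, (A.toMG h).Inc (A.vert d) (A.edge h d) :=
    fun d => (inc_edge h _ _).2 ⟨d, rfl, rfl⟩
  choose F hF1 hF2 using fun d => (inc_edge hB _ _).1 (hφ1 (A.vert d) _ (hinc d))
  refine ⟨F, φ, hF1, fun d d' hv he => ?_, fun d => ?_⟩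
  · refine edge_inj h hv (hφ2 (A.vert d) _ _ (hinc d) (hv ▸ hinc d') ?_)
    rw [← hF2, ← hF2, he]
  · exact edge_eq hB (by rw [hF2, hF2, edge_τ])

end DS

end Pool.Agent.H125Z.CC
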