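import Pool.Agent.H125Z.CC.Rigid

set_option autoImplicit false
set_option linter.unusedSectionVars false

namespace Pool.Agent.H125Z.CC

open Finset
open Pool.Agent.Results.MP_75ff39_co.InfiniteAntichain

lemma step_dvd {b : ℕ} (S : ZMod b × Bool → ZMod b × Bool) (β : Bool) (ε : ZMod b)
    (hε : ε = 1 ∨ ε = -1) (hS : ∀ k, S (k, β) = (k + ε, β)) (t : ℕ) (k : ZMod b)
    (h : S^[t] (k, β) = (k, β)) : b ∣ t := by
  have h1 : ∀ t : ℕ, S^[t] (k, β) = (k + t * ε, β) := by
    intro t
    induction t with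
    | zero => simp
    | succ t ih =>
      rw [Function.iterate_succ_apply', ih, hS]
      push_cast
      rw [add_mul, one_mul, add_assoc]
  rw [h1] at h
  have h2 : k + t * ε = k := congrArg Prod.fst h
  rw [← ZMod.natCast_eq_zero_iff]
  rcases hε with rfl | rfl <;> simpa using h2

section Fam

variable (a : ℕ → ℕ) [∀ i, NeZero (a i)] (I : ℕ → Prop) [DecidablePred I] (n : ℕ)

/-- the cores of all rings -/
abbrev JJ := Σ i : {k : Fin (n + 1) // I k.val}, ZMod (a i.1.val) × Bool

/-- neighbours along the rings -/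
def NN (p : JJ a I n) (s : Fin 7) : JJ a I n := ⟨p.1, nb p.2 s⟩

lemma NN_ok : NbOK (NN a I n) where
  nn := fun p s => by simp only [NN, nb_nb]
  ne := fun p s h => nb_ne p.2 s (eq_of_heq (Sigma.mk.inj h).2)

/-- the attached dart of a ring -/
def ad (i : {k : Fin (n + 1) // I k.val}) : JJ a I n × L := (⟨i, (0, false)⟩, Sum.inr 3)

/-- the attachments of the rings -/
def attF : Att n (MR (NN a I n) (NN_ok a I n)) where
  att := fun k => if h : I k.val then some (ad a I n ⟨k, h⟩) else none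
  back := fun d => if d = ad a I n d.1.1 then some d.1.1.1 else none
  iff := by
    intro k d
    constructor
    · intro h
      split_ifs at h with hk
      obtain rfl := Option.some.inj h
      exact if_pos rfl
    · intro h
      split_ifs at h with hd
      obtain rfl := Option.some.inj h
      rw [dif_pos d.1.1.2]
      exact congrArg some hd.symm
  semi := by
    intro d k h
    split_ifs at h with hd
    rw [hd]
    exact mτ_three (NN a I n) _

lemma att_some {k : Fin (n + 1)} (h : I k.val) :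
    (attF a I n).att k = some (ad a I n ⟨k, h⟩) := dif_pos h

lemma att_eq {k : Fin (n + 1)} {d : JJ a I n × L} (h : (attF a I n).att k = some d) :
    ∃ hk : I k.val, d = ad a I n ⟨k, hk⟩ := by
  by_cases hk : I k.val
  · rw [att_some a I n hk] at h
    exact ⟨hk, (Option.some.inj h).symm⟩
  · rw [show (attF a I n).att k = none from dif_neg hk] at h
    simp at h

lemma back_none {d : JJ a I n × L} (h : d ≠ ad a I n d.1.1) : (attF a I n).back d = none :=
  if_neg h

/-- the graph with semi-edges: a path with rings attached -/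
@[reducible] def HH : DS := Sp (attF a I n)

lemma hom_ring (i : {k : Fin (n + 1) // I k.val}) :
    DS.Hom (MR (nb (n := a i.1.val)) (nbOK _)) (HH a I n) := by
  refine DS.Hom.trans ?_ (hom_in (attF a I n))
  refine ⟨fun d => (⟨i, d.1⟩, d.2), fun v => (⟨i, v.1⟩, v.2), fun d => rfl, ?_, ?_⟩
  · rintro ⟨j, l⟩ ⟨j', l'⟩ h1 h2
    exact Prod.ext (Prod.mk.inj h1).1 (Prod.mk.inj h2).2
  · rintro ⟨j, ⟨e, b⟩ | s⟩
    · right; rfl
    · show ((⟨i, (mτ nb (j, Sum.inr s)).1⟩, (mτ nb (j, Sum.inr s)).2) : JJ a I n × L) = _ ∨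
        ((⟨i, (mτ nb (j, Sum.inr s)).1⟩, (mτ nb (j, Sum.inr s)).2) : JJ a I n × L) =
          mτ (NN a I n) (⟨i, j⟩, Sum.inr s)
      by_cases hs : s = 3
      · left; rw [hs, mτ_three]
      · right; rw [mτ_inr _ _ hs, mτ_inr _ _ hs]; rfl

lemma dvd_of_hom (ha : ∀ i, 2 ≤ a i) (b : ℕ) [NeZero b]
    (h : DS.Hom (MR (nb (n := b)) (nbOK b)) (HH a I n)) : ∃ j, j ≤ n ∧ I j ∧ a j ∣ b := by
  obtain ⟨F, φ, h1, h2, h3⟩ := h
  have hne : ∀ j, NN a I n j 0 ≠ NN a I n j 4 := fun j h =>
    nb_zero_ne (ha _) j.2 (eq_of_heq (Sigma.mk.inj h).2)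
  obtain ⟨c, hc⟩ := local_cover (a := attF a I n) (N' := nb (n := b)) (F := F) (φ := φ)
    (fun d => by rw [← h1]; rcases F d with ⟨k, t⟩ | d <;> rfl) h2 h3
    (fun j s h => by simp only [NN, nb_lt j.2 s h]) (fun j s h => by simp only [NN, nb_ge j.2 s h])
    nb_lt nb_ge hne
  have n0 : ∀ i : ZMod b × Bool, nb (nb i 0) 0 = i := fun i => nb_nb i 0
  have n4 : ∀ i : ZMod b × Bool, nb (nb i 4) 4 = i := fun i => nb_nb i 4
  have N0 : ∀ j, NN a I n (NN a I n j 0) 0 = j := fun j => (NN_ok a I n).nn j 0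
  have N4 : ∀ j, NN a I n (NN a I n j 4) 4 = j := fun j => (NN_ok a I n).nn j 4
  have key : ∀ s0 s1 : Fin 7, ∀ P : ZMod b × Bool → Prop, P (0, false) →
      (∀ i, P i → c (nb i 0) = NN a I n (c i) s0 ∧ c (nb i 4) = NN a I n (c i) s1) →
      (∀ i, P i → P (nb i 0) ∧ P (nb i 4)) →
      (fun z => nb (nb z s0) s1)^[b] (c (0, false)).2 = (c (0, false)).2 := by
    intro s0 s1 P p0 p1 p2
    have h4 : ∀ t : ℕ, P (stp^[t] (0, false)) ∧ c (stp^[t] (0, false)) =
        ⟨(c (0, false)).1, (fun z => nb (nb z s0) s1)^[t] (c (0, false)).2⟩ := by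
      intro t
      induction t with
      | zero => exact ⟨p0, rfl⟩
      | succ t ih =>
        rw [Function.iterate_succ_apply', Function.iterate_succ_apply']
        refine ⟨(p2 _ (p2 _ ih.1).1).2, ?_⟩
        unfold stp at ih ⊢
        rw [(p1 _ (p2 _ ih.1).1).2, (p1 _ ih.1).1, ih.2]
        rfl
    have h5 := (h4 b).2
    rw [stp_iter_false, ZMod.natCast_self, add_zero] at h5
    exact (eq_of_heq (Sigma.mk.inj h5).2).symm
  refine ⟨(c (0, false)).1.1.val, Nat.lt_succ_iff.1 (c (0, false)).1.1.2, (c (0, false)).1.2, ?_⟩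
  rcases hc (0, false) with h0 | h0
  · have h6 := key 0 4 (fun i => c (nb i 0) = NN a I n (c i) 0 ∧ c (nb i 4) = NN a I n (c i) 4)
      h0 (fun i h => h) (fun i h => ⟨(hc _).resolve_right fun g => ?_,
        (hc _).resolve_right fun g => ?_⟩)
    · revert h6
      rcases (c (0, false)).2 with ⟨k, _ | _⟩ <;> intro h6
      · exact step_dvd _ false 1 (Or.inl rfl) (fun k => by simp [nb]) b k h6
      · exact step_dvd _ true (-1) (Or.inr rfl) (fun k => by simp [nb, sub_eq_add_neg]) b k h6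
    · have g1 := g.1
      rw [n0] at g1
      exact hne (c (nb i 0)) (by rw [← g1, h.1, N0])
    · have g1 := g.2
      rw [n4] at g1
      exact hne (c (nb i 4)) (by rw [← g1, h.2, N4])
  · have h6 := key 4 0 (fun i => c (nb i 0) = NN a I n (c i) 4 ∧ c (nb i 4) = NN a I n (c i) 0)
      h0 (fun i h => h) (fun i h => ⟨(hc _).resolve_left fun g => ?_,
        (hc _).resolve_left fun g => ?_⟩)
    · revert h6
      rcases (c (0, false)).2 with ⟨k, _ | _⟩ <;> intro h6
      · exact step_dvd _ false (-1) (Or.inr rfl) (fun k => by simp [nb, sub_eq_add_neg]) b k h6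
      · exact step_dvd _ true 1 (Or.inl rfl) (fun k => by simp [nb]) b k h6
    · have g1 := g.1
      rw [n0] at g1
      exact hne (c (nb i 0)) (by rw [← g1, h.1, N4])
    · have g1 := g.2
      rw [n4] at g1
      exact hne (c (nb i 4)) (by rw [← g1, h.2, N0])

lemma hom_HH (I' : ℕ → Prop) [DecidablePred I'] (m : ℕ)
    (h : ∀ i, i ≤ n → I i → I' (min i m) ∧ a (min i m) ∣ a i) :
    DS.Hom (HH a I n) (HH a I' m) := by
  let c : JJ a I n → JJ a I' m := fun p =>
    ⟨⟨mn m p.1.1, (h _ (Nat.lt_succ_iff.1 p.1.1.2) p.1.2).1⟩,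
      (ZMod.castHom (h _ (Nat.lt_succ_iff.1 p.1.1.2) p.1.2).2 (ZMod (a (min p.1.1.val m))) p.2.1,
        p.2.2)⟩
  have hc : ∀ p s, c (NN a I n p s) = NN a I' m (c p) s := by
    rintro ⟨i, k, _ | _⟩ s <;> by_cases hs : s < 4 <;>
      simp only [c, NN, nb, hs, if_true, if_false, map_add, map_sub, map_one] <;> rfl
  refine hom_sp _ _ (fun d => (c d.1, d.2)) (fun v => (c v.1, v.2)) (fun d => rfl) ?_ ?_ ?_
  · rintro ⟨j, l⟩ ⟨j', l'⟩ h1 h2
    exact Prod.ext (Prod.mk.inj h1).1 (Prod.mk.inj h2).2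
  · rintro ⟨j, ⟨e, b⟩ | s⟩
    · right; rfl
    · show (c (mτ (NN a I n) (j, Sum.inr s)).1, (mτ (NN a I n) (j, Sum.inr s)).2) = _ ∨
        (c (mτ (NN a I n) (j, Sum.inr s)).1, (mτ (NN a I n) (j, Sum.inr s)).2) =
          mτ (NN a I' m) (c j, Sum.inr s)
      by_cases hs : s = 3
      · left; rw [hs, mτ_three]
      · right; rw [mτ_inr _ _ hs, mτ_inr _ _ hs, hc]
  · intro k d hd
    obtain ⟨hk, rfl⟩ := att_eq a I n hd
    rw [att_some a I' m (k := mn m k) (h _ (Nat.lt_succ_iff.1 k.2) hk).1]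
    simp only [ad, c, map_zero]
    rfl

/-- the pieces: single vertices of the path, and rings -/
def piece : Fin (n + 1) ⊕ (JJ a I n × CV) → ℕ :=
  Sum.elim (fun k => k.val) fun v => n + 1 + v.1.1.1.val

lemma mτ_fst (d : JJ a I n × L) : (mτ (NN a I n) d).1.1 = d.1.1 := by
  rcases d with ⟨j, ⟨e, b⟩ | s⟩
  · rfl
  · by_cases hs : s = 3
    · rw [hs, mτ_three]
    · rw [mτ_inr _ _ hs]; rfl

lemma down (d : (HH a I n).D)
    (h : piece a I n ((HH a I n).vert ((HH a I n).τ d)) < piece a I n ((HH a I n).vert d)) :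
    (∃ k, d = Sum.inl (k, 0)) ∨ ∃ i, d = Sum.inr (ad a I n i) := by
  change piece a I n (sv n _ (sτ (attF a I n) d)) < piece a I n (sv n _ d) at h
  rcases sτ_cases (attF a I n) d with ⟨k, k', g, rfl, h'⟩ | ⟨k, g, rfl, h'⟩ |
    ⟨k, k', g, rfl, h'⟩ | ⟨k, g, rfl, h'⟩ | ⟨k, e, g, rfl, h'⟩ | ⟨k, g, rfl, h'⟩ |
    ⟨k, e, g, rfl, h'⟩ | ⟨e, g, rfl, h'⟩ <;> rw [h'] at h
  · exact Or.inl ⟨k, rfl⟩
  · exact Or.inl ⟨k, rfl⟩
  · exfalso
    have : k'.val < k.val := h
    omega
  · exact absurd h (lt_irrefl _)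
  · exfalso
    have : n + 1 + e.1.1.1.val < k.val := h
    omega
  · exact absurd h (lt_irrefl _)
  · obtain ⟨hk, rfl⟩ := att_eq a I n (((attF a I n).iff _ _).2 g)
    exact Or.inr ⟨_, rfl⟩
  · exfalso
    have : n + 1 + (mτ (NN a I n) e).1.1.1.val < n + 1 + e.1.1.1.val := h
    rw [mτ_fst] at this
    omega

lemma HH_five (ha : ∀ i, 13 ≤ a i) (U : Finset (HH a I n).V) (hU : 3 ≤ #U) :
    5 ≤ (HH a I n).bd U := by
  refine DS.five_of_pieces (HH a I n) (piece a I n) ?_ ?_ U hU
  · intro d d' h g g'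
    rcases down a I n d g with ⟨k, rfl⟩ | ⟨i, rfl⟩ <;>
      rcases down a I n d' g' with ⟨k', rfl⟩ | ⟨i', rfl⟩
    · have : k.val = k'.val := h
      rw [Fin.ext this]
    · exfalso
      have : k.val = n + 1 + i'.1.val := h
      omega
    · exfalso
      have : n + 1 + i.1.val = k'.val := h
      omega
    · have : n + 1 + i.1.val = n + 1 + i'.1.val := h
      rw [show i = i' from Subtype.ext (Fin.ext (by omega))]
  · intro c W hW h3
    obtain ⟨v, hv⟩ := Finset.card_pos.1 (show 0 < #W by omega)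
    rcases v with k | ⟨⟨i, z⟩, x⟩
    · exfalso
      have : W ⊆ {Sum.inl k} := by
        intro w hw
        have h4 := (hW _ hw).trans (hW _ hv).symm
        rcases w with k' | w
        · have : k'.val = k.val := h4
          rw [Fin.ext this]; simp
        · exfalso
          have : n + 1 + w.1.1.1.val = k.val := h4
          omega
      have := Finset.card_le_card this
      simp only [Finset.card_singleton] at this
      omega
    · let φ : (ZMod (a i.1.val) × Bool) × CV → (HH a I n).V := fun v => Sum.inr (⟨i, v.1⟩, v.2)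
      letI : DecidableEq (HH a I n).V := (HH a I n).dV
      have hφ : Function.Injective φ := by
        rintro ⟨j, x⟩ ⟨j', x'⟩ h
        have := Prod.mk.inj (Sum.inr.inj h)
        exact Prod.ext (eq_of_heq (Sigma.mk.inj this.1).2) this.2
      have hWφ : W = ({v | φ v ∈ W} : Finset _).image φ := by
        ext w
        simp only [Finset.mem_image, Finset.mem_filter, Finset.mem_univ, true_and]
        refine ⟨fun hw => ?_, fun ⟨v, hv, h⟩ => h ▸ hv⟩
        have h4 := (hW _ hw).trans (hW _ hv).symm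
        rcases w with k' | ⟨⟨i', z'⟩, x'⟩
        · exfalso
          have : k'.val = n + 1 + i.1.val := h4
          omega
        · have : n + 1 + i'.1.val = n + 1 + i.1.val := h4
          obtain rfl : i' = i := Subtype.ext (Fin.ext (by omega))
          exact ⟨(z', x'), hw, rfl⟩
      have h5 := ring_five (a i.1.val) (by have := ha i.1.val; omega) {v | φ v ∈ W} (by
        rw [hWφ, Finset.card_image_of_injective _ hφ] at h3; exact h3)
      rw [hWφ]
      refine h5.trans (DS.bd_emb (MR (nb (n := a i.1.val)) (nbOK _)) (HH a I n)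
        (fun d => Sum.inr (⟨i, d.1⟩, d.2)) φ ?_ hφ (fun d => rfl) ?_ _)
      · rintro ⟨j, x⟩ ⟨j', x'⟩ h
        have := Prod.mk.inj (Sum.inr.inj h)
        exact Prod.ext (eq_of_heq (Sigma.mk.inj this.1).2) this.2
      · intro d
        rcases hb : (attF a I n).back (⟨i, d.1⟩, d.2) with _ | k
        · left
          refine (sτ_r_none (attF a I n) hb).trans (congrArg Sum.inr ?_)
          show mτ (NN a I n) (⟨i, d.1⟩, d.2) = (⟨i, (mτ nb d).1⟩, (mτ nb d).2)
          rcases d with ⟨j, ⟨e, b⟩ | s⟩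
          · rfl
          · by_cases hs : s = 3
            · rw [hs, mτ_three, mτ_three]
            · rw [mτ_inr _ _ hs, mτ_inr _ _ hs]; rfl
        · right
          intro v hv
          have : (HH a I n).τ (Sum.inr (⟨i, d.1⟩, d.2)) = Sum.inl (k, 2) :=
            sτ_r_some (attF a I n) hb
          rw [this] at hv
          exact Sum.inl_ne_inr hv

lemma HH_conn (U : Finset (HH a I n).V) (h1 : U.Nonempty) (h2 : U ≠ univ) :
    ∃ d, (HH a I n).vert d ∈ U ∧ (HH a I n).vert ((HH a I n).τ d) ∉ U := by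
  by_contra hcon
  push Not at hcon
  have hiff : ∀ d d', sτ (attF a I n) d = d' → (sv n _ d' ∈ U ↔ sv n _ d ∈ U) := by
    rintro d _ rfl
    refine ⟨fun h => ?_, hcon d⟩
    have := hcon _ h
    rwa [(HH a I n).invol] at this
  have hsp : ∀ k : Fin (n + 1), (Sum.inl k ∈ U ↔ Sum.inl 0 ∈ U) := by
    intro k
    induction k using Fin.induction with
    | zero => rfl
    | succ k ih =>
      rw [← ih]
      exact hiff _ _ (sτ_1_lt (attF a I n) (k := k.castSucc) (k' := k.succ) (by simp))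
  have hne : ∀ (j : JJ a I n) (l : L), l ≠ Sum.inr 3 → (attF a I n).back (j, l) = none :=
    fun j l h => back_none a I n fun h' => h (congrArg Prod.snd h')
  have hcore : ∀ (j : JJ a I n) (x : CV), Sum.inr (j, x) ∈ U ↔ Sum.inr (j, (0, 0)) ∈ U :=
    fun j x => core_conn (fun x => Sum.inr (j, x) ∈ U) (fun e =>
      (hiff _ _ (sτ_r_none (attF a I n) (hne j (Sum.inl (e, false)) (by simp)))).symm) x
  have hall : ∀ v, v ∈ U ↔ Sum.inl 0 ∈ U := by
    rintro (k | ⟨⟨i, z⟩, x⟩)
    · exact hsp k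
    · rw [hcore, ring_conn (fun z => Sum.inr ((⟨i, z⟩ : JJ a I n), ((0, 0) : CV)) ∈ U) ?_ ?_ z,
        ← hcore _ (3, 0), ← hsp i.1]
      · exact hiff _ _ (sτ_2_some (attF a I n) (att_some a I n i.2))
      · intro j
        have := hiff _ _ (sτ_r_none (attF a I n) (hne ⟨i, j⟩ (Sum.inr 0) (by decide)))
        change sv n _ (Sum.inr (mτ (NN a I n) _)) ∈ U ↔ _ at this
        rw [mτ_inr _ _ (by decide)] at this
        exact this
      · intro j
        have := hiff _ _ (sτ_r_none (attF a I n) (hne ⟨i, j⟩ (Sum.inr 4) (by decide)))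
        change sv n _ (Sum.inr (mτ (NN a I n) _)) ∈ U ↔ _ at this
        rw [mτ_inr _ _ (by decide)] at this
        rw [← hcore _ (4, 0), ← hcore _ (4, 0)]
        exact this
  obtain ⟨v, hv⟩ := h1
  exact h2 (Finset.eq_univ_of_forall fun w => (hall w).2 ((hall v).1 hv))

lemma HH_nice (ha : ∀ i, 13 ≤ a i) (h0 : I 0) (hI : I n) (hn : 1 ≤ n) : (HH a I n).Nice where
  semi_inj := by
    intro d d' hd hd' hv
    change sτ (attF a I n) d = d at hd
    change sτ (attF a I n) d' = d' at hd'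
    change sv n _ d = sv n _ d' at hv
    have hno : ∀ k : Fin (n + 1), (attF a I n).att k = none → k.val ≠ 0 ∧ k.val ≠ n := by
      intro k hk
      constructor <;> intro h
      · rw [att_some a I n (by rw [h]; exact h0)] at hk; simp at hk
      · rw [att_some a I n (by rw [h]; exact hI)] at hk; simp at hk
    rcases sτ_cases (attF a I n) d with ⟨k, k', h, rfl, h'⟩ | ⟨k, h, rfl, h'⟩ |
      ⟨k, k', h, rfl, h'⟩ | ⟨k, h, rfl, h'⟩ | ⟨k, e, h, rfl, h'⟩ | ⟨k, h, rfl, h'⟩ |
      ⟨k, e, h, rfl, h'⟩ | ⟨e, h, rfl, h'⟩ <;> rw [h'] at hd <;>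
      first | (exfalso; simp at hd; done) | skip
    all_goals
      rcases sτ_cases (attF a I n) d' with ⟨l, l', g, rfl, g'⟩ | ⟨l, g, rfl, g'⟩ |
        ⟨l, l', g, rfl, g'⟩ | ⟨l, g, rfl, g'⟩ | ⟨l, f, g, rfl, g'⟩ | ⟨l, g, rfl, g'⟩ |
        ⟨l, f, g, rfl, g'⟩ | ⟨f, g, rfl, g'⟩ <;> rw [g'] at hd' <;>
        first | (exfalso; simp at hd'; done) | exact absurd hv Sum.inl_ne_inr
              | exact absurd hv Sum.inr_ne_inl | skip
    all_goals first
      | (obtain rfl : k = l := Sum.inl.inj hv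
         first | rfl | (exfalso; omega) | (exfalso; have := hno _ h; omega)
               | (exfalso; have := hno _ g; omega))
      | skip
    have e1 := mτ_fix (NN_ok a I n) (Sum.inr.inj hd)
    have e2 := mτ_fix (NN_ok a I n) (Sum.inr.inj hd')
    exact congrArg Sum.inr (Prod.ext (Prod.mk.inj (Sum.inr.inj hv)).1 (e1.trans e2.symm))
  many := by
    have key : ∀ z : ZMod (a (Fin.last n).val), (HH a I n).τ (Sum.inr
        (⟨⟨Fin.last n, hI⟩, (z, true)⟩, Sum.inr 3)) =
          Sum.inr (⟨⟨Fin.last n, hI⟩, (z, true)⟩, Sum.inr 3) := by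
      intro z
      refine (sτ_r_none (attF a I n) (back_none a I n fun h => ?_)).trans
        (congrArg Sum.inr (mτ_three (NN a I n) _))
      have := eq_of_heq (Sigma.mk.inj (Prod.mk.inj h).1).2
      simp at this
    refine (ha (Fin.last n).val).trans ((ZMod.card _).symm.le.trans
      (@Fintype.card_le_of_injective _ _ _ (_) (fun z => ⟨_, key z⟩) fun z z' h => ?_))
    have := eq_of_heq (Sigma.mk.inj (Prod.mk.inj (Sum.inr.inj (Subtype.mk.inj h))).1).2
    exact (Prod.mk.inj this).1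
  five := HH_five a I n ha
  conn := HH_conn a I n

end Fam

end Pool.Agent.H125Z.CC
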