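import Pool.Agent.H125Z.CC.Spine

set_option autoImplicit false

namespace Pool.Agent.H125Z.CC

open Finset
open Pool.Agent.Results.MP_75ff39_co.InfiniteAntichain

section

variable {J J' : Type} [Fintype J] [DecidableEq J] [Fintype J'] [DecidableEq J']
  {N : J → Fin 7 → J} {hN : NbOK N} {N' : J' → Fin 7 → J'} {hN' : NbOK N'} {m : ℕ}
  (a : Att m (MR N hN))

/-- the vertex of a dart -/
def sw' (m : ℕ) : (Fin (m + 1) × Fin 3) ⊕ (J × L) → Fin (m + 1) ⊕ (J × CV) :=
  Sum.map Prod.fst fun d => (d.1, cv d.2)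

/-- colouring of the darts, proper away from one vertex in each core -/
def kap (m : ℕ) (y : J → CV) : (Fin (m + 1) × Fin 3) ⊕ (J × L) → Fin 3
  | Sum.inl (k, t) => if t = 2 then 0 else if (k.val + t.val) % 2 = 0 then 1 else 2
  | Sum.inr (j, Sum.inl (e, _)) => col (y j) e
  | Sum.inr (_, Sum.inr _) => 0

lemma att_three {k : Fin (m + 1)} {e : J × L} (h : a.back e = some k) : e.2 = Sum.inr 3 :=
  mτ_fix hN (a.semi e k h)

lemma kap_τ (y : J → CV) (d : (Fin (m + 1) × Fin 3) ⊕ (J × L)) :
    kap m y (sτ a d) = kap m y d := by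
  rcases sτ_cases a d with ⟨k, k', h, rfl, h'⟩ | ⟨k, h, rfl, h'⟩ | ⟨k, k', h, rfl, h'⟩ |
    ⟨k, h, rfl, h'⟩ | ⟨k, e, h, rfl, h'⟩ | ⟨k, h, rfl, h'⟩ | ⟨k, e, h, rfl, h'⟩ |
    ⟨e, h, rfl, h'⟩ <;> rw [h']
  · simp [kap, ← h]
  · simp [kap, ← h]
  · obtain ⟨j, l⟩ := e
    have : l = Sum.inr 3 := att_three a ((a.iff _ _).1 h)
    subst this
    simp [kap]
  · obtain ⟨j, l⟩ := e
    have : l = Sum.inr 3 := att_three a h
    subst this
    simp [kap]
  · rcases e with ⟨j, ⟨e, b⟩ | s⟩
    · rfl
    · show kap m y (Sum.inr (mτ N (j, Sum.inr s))) = 0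
      by_cases hs : s = 3
      · rw [hs, mτ_three]; rfl
      · rw [mτ_inr N j hs]; rfl

lemma kap_proper (y : J → CV) (d d' : (Fin (m + 1) × Fin 3) ⊕ (J × L))
    (h : sw' m d = sw' m d')
    (hy : ∀ j, sw' m d ≠ Sum.inr (j, y j)) (hk : kap m y d = kap m y d') : d = d' := by
  rcases d with ⟨k, t⟩ | ⟨j, l⟩ <;> rcases d' with ⟨k', t'⟩ | ⟨j', l'⟩ <;>
    simp only [sw', Sum.map_inl, Sum.map_inr, Sum.inl.injEq, Sum.inr.injEq, reduceCtorEq,
      Prod.mk.injEq] at h ⊢
  · subst h
    refine ⟨rfl, ?_⟩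
    have key : ∀ (r : Fin 2) (t t' : Fin 3), ((if t = 2 then 0 else if (r.val + t.val) % 2 = 0
        then 1 else 2 : Fin 3) = if t' = 2 then 0 else if (r.val + t'.val) % 2 = 0 then 1 else 2) →
        t = t' := by decide
    refine key ⟨k.val % 2, Nat.mod_lt _ (by norm_num)⟩ t t' ?_
    simpa only [kap, Nat.mod_add_mod] using hk
  · obtain ⟨rfl, h⟩ := h
    refine ⟨rfl, ?_⟩
    have hne : cv l ≠ y j := fun h' => hy j (by simp [sw', h'])
    rcases l with ⟨e, b⟩ | s <;> rcases l' with ⟨e', b'⟩ | s'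
    · have h1 := cv_inc e b
      have h2 := cv_inc e' b'
      rw [← h] at h2
      rw [stl_spec] at h1 h2
      have h3 := col_inj (y j) _ hne e h1 e' h2 hk
      subst h3
      by_cases hb : b' = b
      · rw [hb]
      · exfalso
        have : b' = !b := by cases b <;> cases b' <;> simp_all
        rw [this] at h
        exact cv_flip_ne e b h.symm
    · exfalso
      have h1 := cv_inc e b
      rw [stl_spec] at h1
      exact col_ne (y j) _ hne (by rw [h]; rfl) e h1 hk
    · exfalso
      have h1 := cv_inc e' b'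
      rw [← h, stl_spec] at h1
      exact col_ne (y j) _ hne rfl e' h1 hk.symm
    · have : s = s' := congrArg Prod.fst h
      rw [this]

variable {a}
variable {F : J' × L → (Fin (m + 1) × Fin 3) ⊕ (J × L)} {φ : J' × CV → Fin (m + 1) ⊕ (J × CV)}
  (h1 : ∀ d, sw' m (F d) = φ (d.1, cv d.2))
  (h2 : ∀ d d' : J' × L, (d.1, cv d.2) = (d'.1, cv d'.2) → F d = F d' → d = d')
  (h3 : ∀ d, F (mτ N' d) = F d ∨ F (mτ N' d) = sτ a (F d))

include h1 h2 h3

lemma core_map' (i : J') :
    ∃ j : J, ∃ g : CV → CV, Function.Injective g ∧ ∀ x, φ (i, x) = Sum.inr (j, g x) := by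
  classical
  set W : Finset (Fin (m + 1) ⊕ (J × CV)) := Finset.univ.image (fun x : CV => φ (i, x)) with hW
  have hWm : ∀ x : CV, φ (i, x) ∈ W := fun x => Finset.mem_image_of_mem _ (Finset.mem_univ x)
  have hWc : #W ≤ #(Finset.univ : Finset CV) := Finset.card_image_le
  by_cases hcase : ∀ j : J, ∃ y : CV, Sum.inr (j, y) ∉ W
  · exfalso
    choose y hy using hcase
    have key : ∀ l l' : L, cv l = cv l' → kap m y (F (i, l)) = kap m y (F (i, l')) → l = l' := by
      intro l l' h hk
      have := kap_proper y _ _ (by rw [h1, h1, h]) (fun j hj => hy j (by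
        rw [← hj, h1]; exact hWm _)) hk
      exact congrArg Prod.snd (h2 (i, l) (i, l') (by rw [h]) this)
    have hb : ∀ e b, kap m y (F (i, Sum.inl (e, b))) = kap m y (F (i, Sum.inl (e, false))) := by
      intro e b
      cases b
      · rfl
      · have := h3 (i, Sum.inl (e, false))
        rw [mτ_inl] at this
        rcases this with h | h
        · exact congrArg _ h
        · exact (congrArg _ h).trans (kap_τ a y _)
    refine uncolourable (fun e => kap m y (F (i, Sum.inl (e, false))))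
      (fun s => kap m y (F (i, Sum.inr s))) ?_ ?_
    · intro x e he e' he' hne hk
      rw [← stl_spec] at he he'
      obtain ⟨b, hb1⟩ := exists_cv he
      obtain ⟨b', hb2⟩ := exists_cv he'
      have := key _ _ (hb1.trans hb2.symm) (by rw [hb e b, hb e' b']; exact hk)
      exact hne (congrArg Prod.fst (Sum.inl.inj this))
    · intro s e he hk
      rw [← stl_spec] at he
      obtain ⟨b, hb1⟩ := exists_cv he
      have := key _ (Sum.inr s) hb1 (by rw [hb e b]; exact hk)
      exact Sum.inl_ne_inr this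
  · push Not at hcase
    obtain ⟨j, hj⟩ := hcase
    have hinjJ : Function.Injective (fun y : CV => (Sum.inr (j, y) : Fin (m + 1) ⊕ (J × CV))) :=
      fun a b hab => (Prod.mk.inj (Sum.inr.inj hab)).2
    have hJ : (Finset.univ.image (fun y : CV => (Sum.inr (j, y) : Fin (m + 1) ⊕ (J × CV)))) =
        W := by
      apply Finset.eq_of_subset_of_card_le
      · intro v hv
        obtain ⟨y, _, rfl⟩ := Finset.mem_image.1 hv
        exact hj y
      · rw [Finset.card_image_of_injective _ hinjJ]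
        exact hWc
    have h4 : ∀ x, ∃ z, φ (i, x) = Sum.inr (j, z) := by
      intro x
      have := hWm x
      rw [← hJ, Finset.mem_image] at this
      obtain ⟨y, _, hy⟩ := this
      exact ⟨y, hy.symm⟩
    choose g hg using h4
    refine ⟨j, g, ?_, hg⟩
    have hc : #(Finset.univ.image (fun x : CV => φ (i, x))) = #(Finset.univ : Finset CV) := by
      rw [← hW, ← hJ, Finset.card_image_of_injective _ hinjJ]
    have hinj := Finset.card_image_iff.1 hc
    intro x x' hab
    apply hinj (Finset.mem_coe.2 (Finset.mem_univ x)) (Finset.mem_coe.2 (Finset.mem_univ x'))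
    show φ (i, x) = φ (i, x')
    rw [hg, hg, hab]

lemma core_ports (i : J') : ∃ (j : J) (l : Fin 7 → Fin 7), Function.Injective l ∧
    (∀ s, F (i, Sum.inr s) = Sum.inr (j, Sum.inr (l s))) ∧ ∀ s, ladj (l s) (l (s + 1)) := by
  classical
  obtain ⟨j, g, hg, hφ⟩ := core_map' h1 h2 h3 i
  have h4 : ∀ l : L, ∃ l' : L, F (i, l) = Sum.inr (j, l') ∧ cv l' = g (cv l) := by
    intro l
    have := h1 (i, l)
    rw [hφ] at this
    rcases hF : F (i, l) with ⟨k, t⟩ | ⟨j', l'⟩ <;> rw [hF] at this
    · simp [sw'] at this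
    · simp only [sw', Sum.map_inr, Sum.inr.injEq, Prod.mk.injEq] at this
      exact ⟨l', by rw [this.1], this.2⟩
  choose μ hμ1 hμ2 using h4
  have hμ : Function.Injective μ := by
    intro l l' h
    have h5 : cv l = cv l' := hg (by rw [← hμ2, ← hμ2, h])
    exact congrArg Prod.snd (h2 (i, l) (i, l') (by rw [h5]) (by rw [hμ1, hμ1, h]))
  have hint : ∀ e b, ∃ e' b', μ (Sum.inl (e, b)) = Sum.inl (e', b') ∧
      μ (Sum.inl (e, !b)) = Sum.inl (e', !b') := by
    intro e b
    have h5 := h3 (i, Sum.inl (e, b))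
    rw [mτ_inl, hμ1, hμ1] at h5
    have hne : μ (Sum.inl (e, !b)) ≠ μ (Sum.inl (e, b)) := fun h => by simpa using hμ h
    rcases h5 with h5 | h5
    · exact absurd (Prod.mk.inj (Sum.inr.inj h5)).2 hne
    · rcases hb : a.back (j, μ (Sum.inl (e, b))) with _ | k
      · rw [sτ_r_none a hb] at h5
        have h6 : (j, μ (Sum.inl (e, !b))) = mτ N (j, μ (Sum.inl (e, b))) := Sum.inr.inj h5
        rcases hl : μ (Sum.inl (e, b)) with ⟨e', b'⟩ | s <;> rw [hl] at h6 hne
        · exact ⟨e', b', rfl, (Prod.mk.inj h6).2⟩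
        · exfalso
          by_cases hs : s = 3
          · rw [hs, mτ_three] at h6
            exact hne (hs ▸ (Prod.mk.inj h6).2)
          · rw [mτ_inr N j hs] at h6
            exact hN.ne j s (Prod.mk.inj h6).1.symm
      · rw [sτ_r_some a hb] at h5
        simp at h5
  have hport : ∀ s, ∃ s', μ (Sum.inr s) = Sum.inr s' := by
    intro s
    rcases hl : μ (Sum.inr s) with p | s'
    · exfalso
      choose E B hE _ using hint
      have hinj : Function.Injective (fun q : CE × Bool => (E q.1 q.2, B q.1 q.2)) := by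
        intro q q' h
        have := hμ (a₁ := Sum.inl (q.1, q.2)) (a₂ := Sum.inl (q'.1, q'.2)) (by
          rw [hE, hE]; exact congrArg Sum.inl h)
        exact Sum.inl.inj this
      obtain ⟨q, hq⟩ := (Finite.injective_iff_surjective.1 hinj) p
      have := hμ (a₁ := Sum.inl (q.1, q.2)) (a₂ := Sum.inr s) (by
        rw [hE, hl]; exact congrArg Sum.inl hq)
      exact Sum.inl_ne_inr this
    · exact ⟨s', rfl⟩
  choose l hl using hport
  have hgl : ∀ s, g (s, 0) = (l s, 0) := fun s => by
    have := hμ2 (Sum.inr s)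
    rw [hl] at this
    exact this.symm
  refine ⟨j, l, fun s s' h => ?_, fun s => by rw [hμ1, hl], fun s => ?_⟩
  · exact Sum.inr.inj (hμ (by rw [hl, hl, h]))
  · obtain ⟨⟨a1, a2⟩, ⟨b1, b2⟩, ⟨c1, c2⟩, ⟨d1, d2⟩, ⟨e1, e2⟩⟩ := walk_edges s
    have step : ∀ (x y : CV) (e : CE), CInc x e → CInc y e →
        dT (l s) (g y) ≤ dT (l s) (g x) + 1 := by
      intro x y e hx hy
      obtain ⟨e', b', g1, g2⟩ := hint e false
      have key : ∀ z, CInc z e → CInc (g z) e' := by
        rintro z (rfl | rfl)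
        · have := hμ2 (Sum.inl (e, false))
          rw [g1] at this
          exact (show cv _ = g (csrc e) from this) ▸ cv_inc e' b'
        · have := hμ2 (Sum.inl (e, !false))
          rw [g2] at this
          exact (show cv _ = g (ctgt e) from this) ▸ cv_inc e' (!b')
      exact dT_adj _ _ _ e' (key x hx) (key y hy)
    have h0 : dT (l s) (g (s, 0)) = 0 := by
      rw [hgl]
      unfold dT
      rw [sub_self]
      rfl
    have k1 := step _ _ _ a1 a2
    have k2 := step _ _ _ b1 b2
    have k3 := step _ _ _ c1 c2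
    have k4 := step _ _ _ d1 d2
    have k5 := step _ _ _ e1 e2
    rw [hgl (s + 1)] at k5
    rcases dT_port (l s) (l (s + 1)) (by omega) with h6 | h6 | h6
    · exfalso
      have h7 : s + 1 = s := Sum.inr.inj (hμ (by rw [hl, hl, h6]))
      revert h7
      simp
    · exact Or.inl h6
    · exact Or.inr h6

/-- the map induced on the cores is locally a covering -/
lemma local_cover (hlt : ∀ j s, s < 4 → N j s = N j 0) (hge : ∀ j s, ¬ s < 4 → N j s = N j 4)
    (hlt' : ∀ j s, s < 4 → N' j s = N' j 0) (hge' : ∀ j s, ¬ s < 4 → N' j s = N' j 4)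
    (hne : ∀ j, N j 0 ≠ N j 4) : ∃ c : J' → J, ∀ i,
      (c (N' i 0) = N (c i) 0 ∧ c (N' i 4) = N (c i) 4) ∨
      (c (N' i 0) = N (c i) 4 ∧ c (N' i 4) = N (c i) 0) := by
  choose c l hl hF hadj using fun i => core_ports h1 h2 h3 i
  refine ⟨c, fun i => ?_⟩
  have hboth : ∀ s, s ≠ 3 → (c (N' i s) = c i ∧ l (N' i s) (pm s) = l i s) ∨
      (l i s ≠ 3 ∧ c (N' i s) = N (c i) (l i s)) := by
    intro s hs
    have h4 := h3 (i, Sum.inr s)
    rw [mτ_inr N' i hs, hF, hF] at h4
    rcases h4 with h4 | h4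
    · left; simpa using h4
    · rcases hb : a.back (c i, Sum.inr (l i s)) with _ | k
      · rw [sτ_r_none a hb] at h4
        have h6 : (c (N' i s), Sum.inr (l (N' i s) (pm s))) = mτ N (c i, Sum.inr (l i s)) :=
          Sum.inr.inj h4
        by_cases h7 : l i s = 3
        · rw [h7, mτ_three] at h6
          left; rw [h7]; simpa using h6
        · rw [mτ_inr N _ h7] at h6
          exact Or.inr ⟨h7, (Prod.mk.inj h6).1⟩
      · rw [sτ_r_some a hb] at h4
        simp at h4
  have hnofold : ∀ s, c (N' i s) ≠ c i := by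
    intro s hfold
    have hfold' : ∀ t, t ≠ 3 → N' i t = N' i s → l (N' i s) (pm t) = l i t := by
      intro t h3 ht
      rcases hboth t h3 with h4 | h4
      · rw [← ht]; exact h4.2
      · exfalso
        rw [ht, hfold] at h4
        exact hN.ne _ _ h4.2.symm
    by_cases hs : s < 4
    · have e0 := hfold' 0 (by decide) (by rw [hlt' i s hs])
      have e2 := hfold' 2 (by decide) (by rw [hlt' i s hs, hlt' i 2 (by decide)])
      have a0 : ladj (l i 0) (l i 1) := hadj i 0
      have a1 : ladj (l i 1) (l i 2) := hadj i 1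
      have b0 : ladj (l (N' i s) (pm 0)) (l (N' i s) (pm 2)) := hadj (N' i s) 0
      rw [e0, e2] at b0
      exact no_triangle _ _ _ a0 a1 b0
    · have e4 := hfold' 4 (by decide) (by rw [hge' i s hs])
      have e6 := hfold' 6 (by decide) (by rw [hge' i s hs, hge' i 6 (by decide)])
      have a4 : ladj (l i 4) (l i 5) := hadj i 4
      have a5 : ladj (l i 5) (l i 6) := hadj i 5
      have b4 : ladj (l (N' i s) (pm 4)) (l (N' i s) (pm 6)) := hadj (N' i s) 4
      rw [e4, e6] at b4
      exact no_triangle _ _ _ a4 a5 b4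
  have hmove : ∀ s, s ≠ 3 → l i s ≠ 3 ∧ c (N' i s) = N (c i) (l i s) := fun s hs =>
    (hboth s hs).resolve_left fun h => hnofold s h.1
  have hcl : ∀ s t, s ≠ 3 → t ≠ 3 → c (N' i s) = c (N' i t) → (l i s < 4 ↔ l i t < 4) := by
    intro s t hs ht h
    rw [(hmove s hs).2, (hmove t ht).2] at h
    by_cases g1 : l i s < 4 <;> by_cases g2 : l i t < 4
    · exact iff_of_true g1 g2
    · rw [hlt _ _ g1, hge _ _ g2] at h; exact absurd h (hne _)
    · rw [hge _ _ g1, hlt _ _ g2] at h; exact absurd h.symm (hne _)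
    · exact iff_of_false g1 g2
  have c01 := hcl 0 1 (by decide) (by decide) (by rw [hlt' i 1 (by decide)])
  have c02 := hcl 0 2 (by decide) (by decide) (by rw [hlt' i 2 (by decide)])
  have c45 := hcl 4 5 (by decide) (by decide) (by rw [hge' i 5 (by decide)])
  have c46 := hcl 4 6 (by decide) (by decide) (by rw [hge' i 6 (by decide)])
  have m0 := hmove 0 (by decide)
  have m1 := (hmove 1 (by decide)).1
  have m2 := (hmove 2 (by decide)).1
  have m4 := hmove 4 (by decide)
  have n01 : l i 0 ≠ l i 1 := fun h' => absurd (hl i h') (by decide)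
  have n02 : l i 0 ≠ l i 2 := fun h' => absurd (hl i h') (by decide)
  have n12 : l i 1 ≠ l i 2 := fun h' => absurd (hl i h') (by decide)
  have n04 : l i 0 ≠ l i 4 := fun h' => absurd (hl i h') (by decide)
  have n14 : l i 1 ≠ l i 4 := fun h' => absurd (hl i h') (by decide)
  have n24 : l i 2 ≠ l i 4 := fun h' => absurd (hl i h') (by decide)
  have m0' := m0.1
  have m4' := m4.1
  by_cases g : l i 0 < 4
  · have g' : ¬ l i 4 < 4 := by
      have := c01.1 g
      have := c02.1 g
      omega
    left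
    rw [m0.2, m4.2, hlt _ _ g, hge _ _ g']
    exact ⟨rfl, rfl⟩
  · have g' : l i 4 < 4 := by
      have := mt c01.2 g
      have := mt c02.2 g
      omega
    right
    rw [m0.2, m4.2, hge _ _ g, hlt _ _ g']
    exact ⟨rfl, rfl⟩

end

end Pool.Agent.H125Z.CC
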