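import Pool.Agent.H125Z.CC.Cover

set_option autoImplicit false

namespace Pool.Agent.H125Z.CC

open Finset
open Pool.Agent.Results.MP_75ff39_co.InfiniteAntichain

/-- darts of a core -/
abbrev L := (CE × Bool) ⊕ Fin 7

/-- the vertex of a dart of a core -/
def cv : L → CV
  | Sum.inl (e, false) => csrc e
  | Sum.inl (e, true) => ctgt e
  | Sum.inr s => (s, 0)

lemma cv_three : ∀ x : CV, #{l : L | cv l = x} = 3 := by decide +kernel

lemma cv_flip_ne (e : CE) (b : Bool) : cv (Sum.inl (e, !b)) ≠ cv (Sum.inl (e, b)) := by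
  cases b
  · exact (csrc_ne_ctgt e).symm
  · exact csrc_ne_ctgt e

lemma cv_inc (e : CE) (b : Bool) : CInc (cv (Sum.inl (e, b))) e := by
  cases b
  · exact Or.inl rfl
  · exact Or.inr rfl

lemma exists_cv {x : CV} {e : CE} (h : CInc x e) : ∃ b, cv (Sum.inl (e, b)) = x := by
  rcases h with h | h
  · exact ⟨false, h⟩
  · exact ⟨true, h⟩

lemma pm_eq_three : ∀ s : Fin 7, pm s = 3 ↔ s = 3 := by decide

/-- the neighbour maps of a system of cores -/
structure NbOK {J : Type} (N : J → Fin 7 → J) : Prop where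
  nn : ∀ j s, N (N j s) (pm s) = j
  ne : ∀ j s, N j s ≠ j

/-- the involution of a system of cores; the ports with label three are semi-edges -/
def mτ {J : Type} (N : J → Fin 7 → J) : J × L → J × L
  | (j, Sum.inl (e, b)) => (j, Sum.inl (e, !b))
  | (j, Sum.inr s) => if s = 3 then (j, Sum.inr s) else (N j s, Sum.inr (pm s))

section

variable {J : Type} (N : J → Fin 7 → J)

lemma mτ_inl (j : J) (e : CE) (b : Bool) :
    mτ N (j, Sum.inl (e, b)) = (j, Sum.inl (e, !b)) := rfl

lemma mτ_three (j : J) : mτ N (j, Sum.inr 3) = (j, Sum.inr 3) := by simp [mτ]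

lemma mτ_inr (j : J) {s : Fin 7} (h : s ≠ 3) :
    mτ N (j, Sum.inr s) = (N j s, Sum.inr (pm s)) := by simp [mτ, h]

lemma mτ_fix {N : J → Fin 7 → J} (hN : NbOK N) {d : J × L} (h : mτ N d = d) :
    d.2 = Sum.inr 3 := by
  rcases d with ⟨j, ⟨e, b⟩ | s⟩
  · rw [mτ_inl] at h; simp at h
  · by_cases hs : s = 3
    · rw [hs]
    · rw [mτ_inr N j hs] at h
      exact absurd (congrArg Prod.fst h) (hN.ne j s)

end

set_option linter.constructorNameAsVariable false in
/-- a system of cores -/
@[reducible] def MR {J : Type} [Fintype J] [DecidableEq J] (N : J → Fin 7 → J) (hN : NbOK N) :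
    DS where
  V := J × CV
  D := J × L
  vert := fun d => (d.1, cv d.2)
  τ := mτ N
  invol := by
    rintro ⟨j, ⟨e, b⟩ | s⟩
    · simp [mτ_inl]
    · by_cases hs : s = 3
      · rw [hs, mτ_three, mτ_three]
      · rw [mτ_inr N j hs, mτ_inr N _ (by rwa [Ne, pm_eq_three]), hN.nn, pm_pm]
  three := by
    rintro ⟨j, x⟩
    rw [← cv_three x]
    refine Finset.card_bij (fun p _ => p.2) ?_ ?_ ?_
    · intro p hp
      simp only [Finset.mem_filter, Finset.mem_univ, true_and, Prod.mk.injEq] at hp ⊢
      exact hp.2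
    · intro p hp q hq h
      simp only [Finset.mem_filter, Finset.mem_univ, true_and, Prod.mk.injEq] at hp hq
      exact Prod.ext (hp.1.trans hq.1.symm) h
    · intro d hd
      simp only [Finset.mem_filter, Finset.mem_univ, true_and] at hd
      exact ⟨(j, d), by simp [hd], rfl⟩
  noloop := by
    rintro ⟨j, ⟨e, b⟩ | s⟩ h
    · rw [mτ_inl]
      exact fun h' => cv_flip_ne e b (congrArg Prod.snd h')
    · by_cases hs : s = 3
      · rw [hs, mτ_three] at h; exact absurd rfl h
      · rw [mτ_inr N j hs]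
        exact fun h' => hN.ne j s (congrArg Prod.fst h')
  simple := by
    rintro ⟨j, ⟨e, b⟩ | s⟩ ⟨j', ⟨e', b'⟩ | s'⟩ h h' h1 h2 <;>
      obtain ⟨rfl, h1⟩ := Prod.mk.inj h1
    · rw [mτ_inl, mτ_inl] at h2
      have h3 := (Prod.mk.inj h2).2
      have h4 : e = e' := by
        have a1 := cv_inc e' b'
        have a2 := cv_inc e' (!b')
        dsimp only at h1 h3
        rw [← h1] at a1
        rw [← h3] at a2
        cases b
        · exact core_simple e e' a1 a2
        · exact core_simple e e' a2 a1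
      subst h4
      by_cases hb : b' = b
      · rw [hb]
      · exfalso
        have : b' = !b := by cases b <;> cases b' <;> simp_all
        rw [this] at h1
        exact cv_flip_ne e b h1.symm
    · have hs : s' ≠ 3 := by
        rintro rfl
        exact h' (mτ_three N j)
      rw [mτ_inl, mτ_inr N j hs] at h2
      exact absurd (congrArg Prod.fst h2).symm (hN.ne j s')
    · have hs : s ≠ 3 := by
        rintro rfl
        exact h (mτ_three N j)
      rw [mτ_inl, mτ_inr N j hs] at h2
      exact absurd (congrArg Prod.fst h2) (hN.ne j s)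
    · have : s = s' := congrArg Prod.fst h1
      rw [this]

lemma nbOK (a : ℕ) : NbOK (nb (n := a)) := ⟨nb_nb, nb_ne⟩

/-- the edge of the ring graph below a dart -/
def rE {a : ℕ} : (ZMod a × Bool) × L → RE a
  | (j, Sum.inl (e, _)) => Sum.inl (j, e)
  | (j, Sum.inr s) => Sum.inr (ce j s)

theorem ring_five (a : ℕ) [NeZero a] (ha : 4 ≤ a) (W : Finset (MR (nb (n := a)) (nbOK a)).V)
    (h3 : 3 ≤ #W) : 5 ≤ (MR (nb (n := a)) (nbOK a)).bd W := by
  by_cases hc : 3 ≤ #Wᶜ
  · have h1 := ring_cut5' (n := a) (fun v => decide (v ∈ W))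
      (h3.trans (le_of_eq (by congr 1; ext v; simp)))
      (hc.trans (le_of_eq (by congr 1; ext v; simp)))
    refine h1.trans (Finset.card_le_card_of_surjOn rE ?_)
    intro e he
    simp only [Finset.coe_filter, Finset.mem_univ, true_and, Set.mem_ofPred_eq, ne_eq,
      decide_eq_decide] at he
    have key : ∀ d : (ZMod a × Bool) × L, rE d = e → (d.1, cv d.2) ∈ W →
        (mτ nb d = d ∨ ((mτ nb d).1, cv (mτ nb d).2) ∉ W) →
        e ∈ rE '' (({d | (MR (nb (n := a)) (nbOK a)).vert d ∈ W ∧
          ((MR (nb (n := a)) (nbOK a)).τ d = d ∨ (MR (nb (n := a)) (nbOK a)).vert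
            ((MR (nb (n := a)) (nbOK a)).τ d) ∉ W)} : Finset _) : Set _) := by
      intro d h1 h2 h3
      refine ⟨d, ?_, h1⟩
      simp only [Finset.coe_filter, Finset.mem_univ, true_and, Set.mem_ofPred_eq]
      exact ⟨h2, h3⟩
    rcases e with ⟨j, e⟩ | ⟨k, s⟩
    · by_cases h : (j, csrc e) ∈ W
      · exact key (j, Sum.inl (e, false)) rfl h (Or.inr fun h' => he (iff_of_true h h'))
      · refine key (j, Sum.inl (e, true)) rfl ?_ (Or.inr h)
        by_contra h'
        exact he (iff_of_false h h')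
    · by_cases h : ((k, false), ((s, 0) : CV)) ∈ W
      · refine key ((k, false), Sum.inr s) rfl h ?_
        by_cases hs : s = 3
        · left; rw [hs, mτ_three]
        · right; rw [mτ_inr _ _ hs]
          exact fun h' => he (iff_of_true h h')
      · refine key (nb (k, false) s, Sum.inr (pm s)) ?_ ?_ ?_
        · show Sum.inr (ce _ _) = _
          rw [ce_nb]; rfl
        · by_contra h'
          exact he (iff_of_false h h')
        · by_cases hs : s = 3
          · left; rw [(pm_eq_three s).2 hs, mτ_three]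
          · right; rw [mτ_inr _ _ (by rwa [Ne, pm_eq_three]), nb_nb, pm_pm]
            exact h
  · have h1 : #{j : ZMod a × Bool | (j, ((3, 0) : CV)) ∈ W} ≤
        (MR (nb (n := a)) (nbOK a)).bd W := by
      refine Finset.card_le_card_of_injOn (fun j => (j, Sum.inr 3)) ?_
        (fun j _ j' _ h => congrArg Prod.fst h)
      intro j hj
      simp only [Finset.coe_filter, Finset.mem_univ, true_and, Set.mem_ofPred_eq] at hj ⊢
      exact ⟨hj, Or.inl (mτ_three _ _)⟩
    have h2 : #{j : ZMod a × Bool | ¬ (j, ((3, 0) : CV)) ∈ W} ≤ #Wᶜ := by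
      refine Finset.card_le_card_of_injOn (fun j => (j, (3, 0))) ?_
        (fun j _ j' _ h => congrArg Prod.fst h)
      intro j hj
      simp only [Finset.coe_filter, Finset.mem_univ, true_and, Set.mem_ofPred_eq] at hj
      simpa using hj
    have h4 := Finset.card_filter_add_card_filter_not (s := (univ : Finset (ZMod a × Bool)))
      (fun j => (j, ((3, 0) : CV)) ∈ W)
    simp only [Finset.card_univ, Fintype.card_prod, ZMod.card, Fintype.card_bool] at h4
    omega

lemma core_parent : ∀ x : CV, x ≠ (0, 0) →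
    ∃ e ∈ stl x, dT 0 (csrc e) < dT 0 x ∨ dT 0 (ctgt e) < dT 0 x := by decide +kernel

lemma core_conn (Q : CV → Prop) (h : ∀ e, Q (csrc e) ↔ Q (ctgt e)) (x : CV) :
    Q x ↔ Q (0, 0) := by
  induction hx : dT 0 x using Nat.strong_induction_on generalizing x with
  | _ t ih =>
    by_cases h0 : x = (0, 0)
    · rw [h0]
    · obtain ⟨e, he, h1⟩ := core_parent x h0
      rw [← stl_spec] at he
      have h2 : Q x ↔ Q (csrc e) := by
        rcases he with h2 | h2 <;> rw [← h2]
        exact (h e).symm
      rcases h1 with h1 | h1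
      · rw [h2]; exact ih _ (hx ▸ h1) _ rfl
      · rw [h2, h e]; exact ih _ (hx ▸ h1) _ rfl

lemma ring_conn {a : ℕ} [NeZero a] (Q : ZMod a × Bool → Prop) (h0 : ∀ j, Q (nb j 0) ↔ Q j)
    (h4 : ∀ j, Q (nb j 4) ↔ Q j) (j : ZMod a × Bool) : Q j ↔ Q (0, false) := by
  have h1 : ∀ t : ℕ, Q ((t : ZMod a), false) ↔ Q (0, false) := by
    intro t
    induction t with
    | zero => simp
    | succ t ih =>
      rw [← ih, ← h0 ((t : ZMod a), false), ← h4 (nb ((t : ZMod a), false) 0)]
      have := stp_false (t : ZMod a)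
      unfold stp at this
      rw [this]
      push_cast
      rfl
  have h2 : ∀ k : ZMod a, Q (k, false) ↔ Q (0, false) := by
    intro k
    have := h1 k.val
    rwa [ZMod.natCast_zmod_val] at this
  rcases j with ⟨k, _ | _⟩
  · exact h2 k
  · rw [← h2 k, ← h0 (k, false)]
    simp [nb]

end Pool.Agent.H125Z.CC
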