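import Pool.Agent.H125Z.CC.Ring

set_option autoImplicit false

namespace Pool.Agent.H125Z.CC

open Finset

namespace DS

lemma five_of_pieces (A : DS) (π : A.V → ℕ)
    (h1 : ∀ d d', π (A.vert d) = π (A.vert d') → π (A.vert (A.τ d)) < π (A.vert d) →
      π (A.vert (A.τ d')) < π (A.vert d') → d = d')
    (h2 : ∀ (c : ℕ) (W : Finset A.V), (∀ v ∈ W, π v = c) → 3 ≤ #W → 5 ≤ A.bd W)
    (U : Finset A.V) (hU : 3 ≤ #U) : 5 ≤ A.bd U := by
  have h3 : ∀ (c : ℕ) (W : Finset A.V), (∀ v ∈ W, π v = c) → W.Nonempty →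
      min (#W + 2) 5 ≤ A.bd W := by
    intro c W hW hne
    by_cases h : #W ≤ 2
    · exact (min_le_left _ _).trans (A.bd_small _ hne h)
    · exact (min_le_right _ _).trans (h2 c W hW (by omega))
  have key : ∀ (t : ℕ) (U : Finset A.V), #U = t → U.Nonempty → min (#U + 2) 5 ≤ A.bd U := by
    intro t
    induction t using Nat.strong_induction_on with
    | _ t ih =>
      intro U ht hne
      obtain ⟨v, hv, hmax⟩ := Finset.exists_max_image U π hne
      set W : Finset A.V := {w ∈ U | π w = π v} with hW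
      set U' : Finset A.V := {w ∈ U | ¬ π w = π v} with hU'
      have hWne : W.Nonempty := ⟨v, by simp [hW, hv]⟩
      have hW5 := h3 (π v) W (fun w hw => (Finset.mem_filter.1 hw).2) hWne
      have hcard : #W + #U' = #U := Finset.card_filter_add_card_filter_not _
      have hun : W ∪ U' = U := Finset.filter_union_filter_not_eq _ _
      have hWp := Finset.card_pos.2 hWne
      rcases U'.eq_empty_or_nonempty with h | h
      · rw [h, Finset.union_empty] at hun
        rw [← hun]; exact hW5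
      · have h4 := ih (#U') (by omega) U' rfl h
        have h5 := A.bd_union W U' (Finset.disjoint_filter_filter_not _ _ _)
        have h6 : A.btw W U' ≤ 1 := by
          unfold btw
          rw [Finset.card_le_one]
          intro d hd d' hd'
          simp only [hW, hU', Finset.mem_filter, Finset.mem_univ, true_and] at hd hd'
          have a1 := hmax _ hd.2.2.1
          have a2 := hmax _ hd'.2.2.1
          exact h1 d d' (by rw [hd.2.1.2, hd'.2.1.2]) (by omega) (by omega)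
        have hp := Finset.card_pos.2 h
        rw [hun] at h5
        omega
  have := key _ U rfl (Finset.card_pos.1 (by omega))
  omega

lemma bd_emb (A B : DS) (F : A.D → B.D) (φ : A.V → B.V) (hF : Function.Injective F)
    (hφ : Function.Injective φ) (h1 : ∀ d, B.vert (F d) = φ (A.vert d))
    (h2 : ∀ d, B.τ (F d) = F (A.τ d) ∨ ∀ v, B.vert (B.τ (F d)) ≠ φ v) (W : Finset A.V) :
    A.bd W ≤ B.bd (W.image φ) := by
  unfold bd
  refine Finset.card_le_card_of_injOn F ?_ (fun d _ d' _ h => hF h)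
  intro d hd
  simp only [Finset.coe_filter, Finset.mem_univ, true_and, Set.mem_ofPred_eq] at hd ⊢
  refine ⟨by rw [h1]; exact Finset.mem_image_of_mem _ hd.1, ?_⟩
  rcases h2 d with h | h
  · rcases hd.2 with h' | h'
    · left; rw [h, h']
    · right
      rw [h, h1]
      intro h3
      obtain ⟨v, hv, hv'⟩ := Finset.mem_image.1 h3
      exact h' (hφ hv' ▸ hv)
  · right
    intro h3
    obtain ⟨v, _, hv'⟩ := Finset.mem_image.1 h3
    exact h v hv'.symm

end DS

/-- attachment data: some vertices of a path are joined to semi-edges of `M` -/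
structure Att (n : ℕ) (M : DS) where
  att : Fin (n + 1) → Option M.D
  back : M.D → Option (Fin (n + 1))
  iff : ∀ k d, att k = some d ↔ back d = some k
  semi : ∀ d k, back d = some k → M.τ d = d

section

variable {n : ℕ} {M : DS} (a : Att n M)

/-- the involution of a path with attachments -/
def sτ : (Fin (n + 1) × Fin 3) ⊕ M.D → (Fin (n + 1) × Fin 3) ⊕ M.D
  | Sum.inl (k, t) =>
    if t = 0 then (if 0 < k.val then Sum.inl (⟨k.val - 1, by omega⟩, 1) else Sum.inl (k, t))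
    else if t = 1 then (if h : k.val < n then Sum.inl (⟨k.val + 1, by omega⟩, 0)
      else Sum.inl (k, t))
    else (a.att k).elim (Sum.inl (k, t)) Sum.inr
  | Sum.inr d => (a.back d).elim (Sum.inr (M.τ d)) fun k => Sum.inl (k, 2)

lemma sτ_0_pos {k k' : Fin (n + 1)} (h : k'.val + 1 = k.val) :
    sτ a (Sum.inl (k, 0)) = Sum.inl (k', 1) := by
  have h1 : 0 < k.val := by omega
  simp only [sτ, if_pos, h1, Sum.inl.injEq, Prod.mk.injEq, and_true]
  exact Fin.ext (by simp only; omega)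

lemma sτ_0_zero {k : Fin (n + 1)} (h : k.val = 0) :
    sτ a (Sum.inl (k, 0)) = Sum.inl (k, 0) := by
  simp [sτ, h]

lemma sτ_1_lt {k k' : Fin (n + 1)} (h : k.val + 1 = k'.val) :
    sτ a (Sum.inl (k, 1)) = Sum.inl (k', 0) := by
  have h1 : k.val < n := by omega
  have h2 : ¬ (1 : Fin 3) = 0 := by decide
  simp only [sτ, h2, if_false, if_pos, h1, dif_pos, Sum.inl.injEq, Prod.mk.injEq, and_true]
  exact Fin.ext h

lemma sτ_1_last {k : Fin (n + 1)} (h : k.val = n) :
    sτ a (Sum.inl (k, 1)) = Sum.inl (k, 1) := by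
  simp [sτ, h]

lemma sτ_2_some {k : Fin (n + 1)} {d : M.D} (h : a.att k = some d) :
    sτ a (Sum.inl (k, 2)) = Sum.inr d := by
  simp [sτ, h]

lemma sτ_2_none {k : Fin (n + 1)} (h : a.att k = none) :
    sτ a (Sum.inl (k, 2)) = Sum.inl (k, 2) := by
  simp [sτ, h]

lemma sτ_r_some {k : Fin (n + 1)} {d : M.D} (h : a.back d = some k) :
    sτ a (Sum.inr d) = Sum.inl (k, 2) := by
  simp [sτ, h]

lemma sτ_r_none {d : M.D} (h : a.back d = none) :
    sτ a (Sum.inr d) = Sum.inr (M.τ d) := by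
  simp [sτ, h]

lemma back_τ {d : M.D} (h : a.back d = none) : a.back (M.τ d) = none := by
  rcases h' : a.back (M.τ d) with _ | k
  · rfl
  · have := a.semi _ _ h'
    rw [M.invol] at this
    rw [← this, h] at h'
    exact absurd h' (by simp)

/-- case analysis on the darts of a path with attachments -/
lemma sτ_cases (d : (Fin (n + 1) × Fin 3) ⊕ M.D) :
    (∃ k k' : Fin (n + 1), k'.val + 1 = k.val ∧ d = Sum.inl (k, 0) ∧ sτ a d = Sum.inl (k', 1)) ∨
    (∃ k : Fin (n + 1), k.val = 0 ∧ d = Sum.inl (k, 0) ∧ sτ a d = d) ∨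
    (∃ k k' : Fin (n + 1), k.val + 1 = k'.val ∧ d = Sum.inl (k, 1) ∧ sτ a d = Sum.inl (k', 0)) ∨
    (∃ k : Fin (n + 1), k.val = n ∧ d = Sum.inl (k, 1) ∧ sτ a d = d) ∨
    (∃ k e, a.att k = some e ∧ d = Sum.inl (k, 2) ∧ sτ a d = Sum.inr e) ∨
    (∃ k, a.att k = none ∧ d = Sum.inl (k, 2) ∧ sτ a d = d) ∨
    (∃ k e, a.back e = some k ∧ d = Sum.inr e ∧ sτ a d = Sum.inl (k, 2)) ∨
    (∃ e, a.back e = none ∧ d = Sum.inr e ∧ sτ a d = Sum.inr (M.τ e)) := by
  rcases d with ⟨k, t⟩ | e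
  · have ht : t = 0 ∨ t = 1 ∨ t = 2 := by omega
    rcases ht with rfl | rfl | rfl
    · by_cases h : k.val = 0
      · exact Or.inr (Or.inl ⟨k, h, rfl, sτ_0_zero a h⟩)
      · exact Or.inl ⟨k, ⟨k.val - 1, by omega⟩, by simp only; omega, rfl,
          sτ_0_pos a (by simp only; omega)⟩
    · by_cases h : k.val = n
      · exact Or.inr (Or.inr (Or.inr (Or.inl ⟨k, h, rfl, sτ_1_last a h⟩)))
      · exact Or.inr (Or.inr (Or.inl ⟨k, ⟨k.val + 1, by omega⟩, rfl, rfl, sτ_1_lt a rfl⟩))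
    · rcases h : a.att k with _ | e
      · exact Or.inr (Or.inr (Or.inr (Or.inr (Or.inr (Or.inl ⟨k, h, rfl, sτ_2_none a h⟩)))))
      · exact Or.inr (Or.inr (Or.inr (Or.inr (Or.inl ⟨k, e, h, rfl, sτ_2_some a h⟩))))
  · rcases h : a.back e with _ | k
    · exact Or.inr (Or.inr (Or.inr (Or.inr (Or.inr (Or.inr (Or.inr
        ⟨e, h, rfl, sτ_r_none a h⟩))))))
    · exact Or.inr (Or.inr (Or.inr (Or.inr (Or.inr (Or.inr (Or.inl
        ⟨k, e, h, rfl, sτ_r_some a h⟩))))))

/-- the vertex of a dart -/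
def sv (n : ℕ) (M : DS) : (Fin (n + 1) × Fin 3) ⊕ M.D → Fin (n + 1) ⊕ M.V :=
  Sum.map Prod.fst M.vert

@[simp] lemma sv_inl (k : Fin (n + 1)) (t : Fin 3) : sv n M (Sum.inl (k, t)) = Sum.inl k := rfl
@[simp] lemma sv_inr (d : M.D) : sv n M (Sum.inr d) = Sum.inr (M.vert d) := rfl

lemma sτ_invol (d : (Fin (n + 1) × Fin 3) ⊕ M.D) : sτ a (sτ a d) = d := by
  rcases sτ_cases a d with ⟨k, k', h, rfl, h'⟩ | ⟨k, h, rfl, h'⟩ | ⟨k, k', h, rfl, h'⟩ |
    ⟨k, h, rfl, h'⟩ | ⟨k, e, h, rfl, h'⟩ | ⟨k, h, rfl, h'⟩ | ⟨k, e, h, rfl, h'⟩ |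
    ⟨e, h, rfl, h'⟩ <;> rw [h']
  · exact sτ_1_lt a h
  · exact h'
  · exact sτ_0_pos a h
  · exact h'
  · exact sτ_r_some a ((a.iff _ _).1 h)
  · exact h'
  · exact sτ_2_some a ((a.iff _ _).2 h)
  · rw [sτ_r_none a (back_τ a h), M.invol]

lemma sv_three (v : Fin (n + 1) ⊕ M.V) : #{d | sv n M d = v} = 3 := by
  rcases v with k | v
  · refine Eq.trans (b := #(univ : Finset (Fin 3))) (Eq.symm ?_) rfl
    refine Finset.card_bij (fun t _ => Sum.inl (k, t)) (fun t _ => by simp)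
      (fun t _ t' _ h => by simpa using h) ?_
    rintro (⟨k', t⟩ | d) hd
    · simp only [Finset.mem_filter, Finset.mem_univ, true_and, sv_inl, Sum.inl.injEq] at hd
      exact ⟨t, Finset.mem_univ _, by rw [hd]⟩
    · simp at hd
  · refine Eq.trans (Eq.symm ?_) (M.three v)
    refine Finset.card_bij (fun t _ => Sum.inr t) (fun t ht => by simpa using ht)
      (fun t _ t' _ h => by simpa using h) ?_
    rintro (⟨k', t⟩ | d) hd
    · simp at hd
    · exact ⟨d, by simpa using hd, rfl⟩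

lemma sτ_noloop (d : (Fin (n + 1) × Fin 3) ⊕ M.D) (hd : sτ a d ≠ d) :
    sv n M (sτ a d) ≠ sv n M d := by
  rcases sτ_cases a d with ⟨k, k', h, rfl, h'⟩ | ⟨k, h, rfl, h'⟩ | ⟨k, k', h, rfl, h'⟩ |
    ⟨k, h, rfl, h'⟩ | ⟨k, e, h, rfl, h'⟩ | ⟨k, h, rfl, h'⟩ | ⟨k, e, h, rfl, h'⟩ |
    ⟨e, h, rfl, h'⟩ <;> first | exact absurd h' hd | skip
  all_goals rw [h'] at hd ⊢
  · simp only [sv_inl, ne_eq, Sum.inl.injEq]; omega
  · simp only [sv_inl, ne_eq, Sum.inl.injEq]; omega
  · simp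
  · simp
  · simpa using M.noloop e (by simpa using hd)

lemma sτ_simple (d d' : (Fin (n + 1) × Fin 3) ⊕ M.D) (hd : sτ a d ≠ d) (hd' : sτ a d' ≠ d')
    (h1 : sv n M d = sv n M d') (h2 : sv n M (sτ a d) = sv n M (sτ a d')) : d = d' := by
  rcases sτ_cases a d with ⟨k, k', h, rfl, h'⟩ | ⟨k, h, rfl, h'⟩ | ⟨k, k', h, rfl, h'⟩ |
    ⟨k, h, rfl, h'⟩ | ⟨k, e, h, rfl, h'⟩ | ⟨k, h, rfl, h'⟩ | ⟨k, e, h, rfl, h'⟩ |
    ⟨e, h, rfl, h'⟩ <;> first | exact absurd h' hd | skip
  all_goals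
    rcases sτ_cases a d' with ⟨l, l', g, rfl, g'⟩ | ⟨l, g, rfl, g'⟩ | ⟨l, l', g, rfl, g'⟩ |
      ⟨l, g, rfl, g'⟩ | ⟨l, f, g, rfl, g'⟩ | ⟨l, g, rfl, g'⟩ | ⟨l, f, g, rfl, g'⟩ |
      ⟨f, g, rfl, g'⟩ <;> first | exact absurd g' hd' | skip
  all_goals
    rw [h'] at hd
    rw [g'] at hd'
    rw [h', g'] at h2
    simp only [sv_inl, sv_inr, Sum.inl.injEq, Sum.inr.injEq, reduceCtorEq, ne_eq] at h1 h2 hd hd'
  · rw [h1]
  · exfalso; omega
  · exfalso; omega
  · rw [h1]
  · rw [h1]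
  · subst h2
    have := ((a.iff _ _).2 h).symm.trans ((a.iff _ _).2 g)
    rw [Option.some.inj this]
  · rw [M.simple e f hd hd' h1 h2]

/-- a path with attachments -/
@[reducible] def Sp : DS where
  V := Fin (n + 1) ⊕ M.V
  D := (Fin (n + 1) × Fin 3) ⊕ M.D
  vert := sv n M
  τ := sτ a
  invol := sτ_invol a
  three := sv_three
  noloop := sτ_noloop a
  simple := sτ_simple a

lemma hom_in : DS.Hom M (Sp a) := by
  refine ⟨Sum.inr, Sum.inr, fun d => rfl, fun d d' _ h => Sum.inr.inj h, fun d => ?_⟩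
  rcases h : a.back d with _ | k
  · right; exact (sτ_r_none a h).symm
  · left; rw [a.semi d k h]

/-- exchange of the two directions of the path -/
def sw (b : ℕ) (t : Fin 3) : Fin 3 := if b % 2 = 1 then ![1, 0, 2] t else t

lemma sw_inj (b : ℕ) {t t' : Fin 3} (h : sw b t = sw b t') : t = t' := by
  unfold sw at h
  split_ifs at h
  · revert t t'; decide
  · exact h

lemma sw_two (b : ℕ) : sw b 2 = 2 := by
  unfold sw; split_ifs <;> rfl

lemma sw_succ (b : ℕ) : sw (b + 1) 0 = sw b 1 := by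
  unfold sw
  by_cases h : b % 2 = 1
  · rw [if_neg (by omega), if_pos h]; rfl
  · rw [if_pos (by omega), if_neg h]; rfl

/-- truncation -/
def mn (m : ℕ) (k : Fin (n + 1)) : Fin (m + 1) := ⟨min k.val m, by omega⟩

lemma hom_sp {m : ℕ} {M' : DS} (a' : Att m M') (F : M.D → M'.D) (φ : M.V → M'.V)
    (h1 : ∀ d, M'.vert (F d) = φ (M.vert d))
    (h2 : ∀ d d', M.vert d = M.vert d' → F d = F d' → d = d')
    (h3 : ∀ d, F (M.τ d) = F d ∨ F (M.τ d) = M'.τ (F d))
    (h4 : ∀ k d, a.att k = some d → a'.att (mn m k) = some (F d)) : DS.Hom (Sp a) (Sp a') := by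
  refine ⟨Sum.map (fun p => (mn m p.1, sw (p.1.val - m) p.2)) F, Sum.map (mn m) φ, ?_, ?_, ?_⟩
  · rintro (⟨k, t⟩ | d)
    · rfl
    · simp [h1]
  · rintro (⟨k, t⟩ | d) (⟨k', t'⟩ | d') g1 g2 <;>
      simp only [sv_inl, sv_inr, Sum.inl.injEq, Sum.inr.injEq, reduceCtorEq, Sum.map_inl,
        Sum.map_inr, Prod.mk.injEq] at g1 g2 ⊢
    · subst g1
      exact ⟨rfl, sw_inj _ g2.2⟩
    · exact h2 d d' g1 g2
  · intro d
    show Sum.map _ F (sτ a d) = _ ∨ Sum.map _ F (sτ a d) = sτ a' _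
    rcases sτ_cases a d with ⟨k, k', h, rfl, h'⟩ | ⟨k, h, rfl, h'⟩ | ⟨k, k', h, rfl, h'⟩ |
      ⟨k, h, rfl, h'⟩ | ⟨k, e, h, rfl, h'⟩ | ⟨k, h, rfl, h'⟩ | ⟨k, e, h, rfl, h'⟩ |
      ⟨e, h, rfl, h'⟩ <;> rw [h'] <;> first | exact Or.inl rfl | skip
    all_goals simp only [Sum.map_inl, Sum.map_inr]
    · by_cases hk : k.val ≤ m
      · right
        rw [show k.val - m = 0 by omega, show k'.val - m = 0 by omega]
        exact (sτ_0_pos a' (by simp only [mn]; omega)).symm
      · left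
        rw [show k.val - m = k'.val - m + 1 by omega, sw_succ,
          show mn m k' = mn m k from Fin.ext (by simp only [mn]; omega)]
    · by_cases hk : k'.val ≤ m
      · right
        rw [show k.val - m = 0 by omega, show k'.val - m = 0 by omega]
        exact (sτ_1_lt a' (by simp only [mn]; omega)).symm
      · left
        rw [show k'.val - m = k.val - m + 1 by omega, sw_succ,
          show mn m k' = mn m k from Fin.ext (by simp only [mn]; omega)]
    · right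
      rw [sw_two, sτ_2_some a' (h4 k e h)]
    · right
      rw [sw_two, sτ_r_some a' ((a'.iff _ _).1 (h4 k e ((a.iff _ _).2 h)))]
    · rcases h3 e with g | g
      · left; rw [g]
      · rcases g' : a'.back (F e) with _ | l
        · right; rw [g, sτ_r_none a' g']
        · left; rw [g, a'.semi _ _ g']

end

end Pool.Agent.H125Z.CC
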